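import Mathlib

set_option autoImplicit false

namespace Pool.Agent.Lib.MP_d470cf_nt.NP

open Finset

/-- elementary symmetric functions -/
noncomputable def es (g : ℕ → ℝ) (P : Finset ℕ) (j : ℕ) : ℝ := ∑ S ∈ P.powersetCard j, ∏ p ∈ S, g p

theorem es_zero (g : ℕ → ℝ) (P : Finset ℕ) : es g P 0 = 1 := by
  unfold es
  simp

theorem es_empty_succ (g : ℕ → ℝ) (j : ℕ) : es g ∅ (j + 1) = 0 := by
  unfold es
  rw [powersetCard_eq_empty.2 (by simp), sum_empty]

theorem es_nonneg (g : ℕ → ℝ) (P : Finset ℕ) (h : ∀ p ∈ P, 0 ≤ g p) (j : ℕ) : 0 ≤ es g P j := by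
  unfold es
  refine sum_nonneg fun S hS => prod_nonneg fun p hp => h p ?_
  exact (mem_powersetCard.1 hS).1 hp

theorem es_insert (g : ℕ → ℝ) (P : Finset ℕ) (a : ℕ) (ha : a ∉ P) (j : ℕ) :
    es g (insert a P) (j + 1) = es g P (j + 1) + g a * es g P j := by
  classical
  unfold es
  rw [powersetCard_succ_insert ha, sum_union, sum_image, mul_sum]
  · congr 1
    refine sum_congr rfl fun S hS => ?_
    rw [prod_insert]
    exact fun h => ha ((mem_powersetCard.1 hS).1 h)
  · intro S hS T hT hST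
    have h1 : a ∉ S := fun h => ha ((mem_powersetCard.1 (mem_coe.1 hS)).1 h)
    have h2 : a ∉ T := fun h => ha ((mem_powersetCard.1 (mem_coe.1 hT)).1 h)
    rw [← erase_insert h1, hST, erase_insert h2]
  · rw [disjoint_left]
    intro S hS hS'
    obtain ⟨T, -, rfl⟩ := mem_image.1 hS'
    exact ha ((mem_powersetCard.1 hS).1 (mem_insert_self a T))

theorem es_le (g : ℕ → ℝ) (P : Finset ℕ) (h : ∀ p ∈ P, 0 ≤ g p) (j : ℕ) :
    es g P j ≤ (∑ p ∈ P, g p) ^ j := by
  classical
  induction P using Finset.induction_on generalizing j with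
  | empty =>
    cases j with
    | zero => rw [es_zero]; simp
    | succ j => rw [es_empty_succ]; simp
  | insert a P ha ih =>
    cases j with
    | zero => rw [es_zero]; simp
    | succ j =>
      have hP : ∀ p ∈ P, 0 ≤ g p := fun p hp => h p (mem_insert_of_mem hp)
      have ha0 : 0 ≤ g a := h a (mem_insert_self a P)
      have hs : 0 ≤ ∑ p ∈ P, g p := sum_nonneg hP
      rw [es_insert g P a ha, sum_insert ha]
      have h1 := ih hP (j + 1)
      have h2 := mul_le_mul_of_nonneg_left (ih hP j) ha0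
      have h3 : (∑ p ∈ P, g p) ^ j ≤ (g a + ∑ p ∈ P, g p) ^ j :=
        pow_le_pow_left₀ hs (by linarith) j
      have h4 : (g a + ∑ p ∈ P, g p) * (∑ p ∈ P, g p) ^ j ≤
          (g a + ∑ p ∈ P, g p) * (g a + ∑ p ∈ P, g p) ^ j :=
        mul_le_mul_of_nonneg_left h3 (by linarith)
      rw [pow_succ']
      rw [pow_succ'] at h1
      nlinarith

theorem es_succ_ge (g : ℕ → ℝ) (P : Finset ℕ) (h : ∀ p ∈ P, 0 ≤ g p ∧ g p ≤ 1 / 3) (j : ℕ) :
    ((∑ p ∈ P, g p) - j / 3) * es g P j ≤ (j + 1) * es g P (j + 1) := by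
  classical
  induction P using Finset.induction_on generalizing j with
  | empty =>
    rw [es_empty_succ, sum_empty, mul_zero]
    have h1 := es_nonneg g ∅ (by simp) j
    have h2 : (0 : ℝ) ≤ j := Nat.cast_nonneg j
    nlinarith
  | insert a P ha ih =>
    have hP : ∀ p ∈ P, 0 ≤ g p ∧ g p ≤ 1 / 3 := fun p hp => h p (mem_insert_of_mem hp)
    obtain ⟨ha0, ha1⟩ := h a (mem_insert_self a P)
    rw [sum_insert ha]
    cases j with
    | zero =>
      rw [es_insert g P a ha, es_zero, es_zero]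
      have h1 := ih hP 0
      rw [es_zero] at h1
      norm_num at h1 ⊢
      linarith
    | succ i =>
      rw [es_insert g P a ha, es_insert g P a ha]
      have h1 := ih hP (i + 1)
      have h2 := ih hP i
      have n0 := es_nonneg g P (fun p hp => (hP p hp).1) i
      push_cast at h1 h2 ⊢
      have h3 := mul_le_mul_of_nonneg_left h2 ha0
      have h4 : g a * (g a - 1 / 3) * es g P i ≤ 0 := by
        have : 0 ≤ g a * (1 / 3 - g a) * es g P i := by
          have : 0 ≤ 1 / 3 - g a := by linarith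
          positivity
        nlinarith
      nlinarith

theorem es_ge (g : ℕ → ℝ) (P : Finset ℕ) (h : ∀ p ∈ P, 0 ≤ g p ∧ g p ≤ 1 / 3) (m : ℕ)
    (hσ : (m : ℝ) ≤ ∑ p ∈ P, g p) :
    ((∑ p ∈ P, g p) / 2) ^ m / (m.factorial : ℝ) ≤ es g P m := by
  have key : ∀ j : ℕ, j ≤ m →
      ((∑ p ∈ P, g p) / 2) ^ j / (j.factorial : ℝ) ≤ es g P j := by
    intro j
    induction j with
    | zero => intro _; rw [es_zero]; simp
    | succ j ih =>
      intro hj
      have h1 := ih (by omega)
      have h2 := es_succ_ge g P h j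
      have hj' : (j : ℝ) ≤ m := by exact_mod_cast (by omega : j ≤ m)
      have hj0 : (0 : ℝ) ≤ j := Nat.cast_nonneg j
      have n0 := es_nonneg g P (fun p hp => (h p hp).1) j
      have h3 : (∑ p ∈ P, g p) / 2 * es g P j ≤ (j + 1) * es g P (j + 1) := by
        refine le_trans (mul_le_mul_of_nonneg_right ?_ n0) h2
        linarith
      have hs : 0 ≤ (∑ p ∈ P, g p) / 2 := by linarith
      have h4 := mul_le_mul_of_nonneg_left h1 hs
      rw [Nat.factorial_succ, pow_succ']
      push_cast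
      rw [div_le_iff₀ (by positivity)]
      have h5 : (∑ p ∈ P, g p) / 2 * ((∑ p ∈ P, g p) / 2) ^ j ≤
          (((j : ℝ) + 1) * es g P (j + 1)) * (j.factorial : ℝ) := by
        have h6 : (∑ p ∈ P, g p) / 2 * (((∑ p ∈ P, g p) / 2) ^ j / (j.factorial : ℝ)) ≤
            ((j : ℝ) + 1) * es g P (j + 1) := h4.trans h3
        rw [← mul_div_assoc, div_le_iff₀ (by positivity)] at h6
        exact h6
      linarith
  exact key m le_rfl

end Pool.Agent.Lib.MP_d470cf_nt.NP
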