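import Pool.Agent.Lib.MP_d470cf_nt.NP.Tr
import Pool.Agent.Lib.MP_d470cf_nt.EK.Transfer

set_option autoImplicit false

open NumberField Module NumberField.Units Finset Classical Filter Topology

namespace Pool.Agent.Lib.MP_d470cf_nt.NP

open Pool.Agent.Lib.MP_d470cf_nt Pool.Agent.Lib.MP_d470cf_nt.Loc
open Pool.Agent.CH.S (OP)

/-- the least level above `x` -/
theorem pick_up (x : ℝ) (hx : 3 ≤ x) : ∃ n : ℕ, 2 ≤ n ∧ x ≤ (2 : ℝ) ^ 2 ^ n ∧
    (2 : ℝ) ^ 2 ^ n ≤ x ^ 4 := by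
  have hex : ∃ n : ℕ, 2 ≤ n ∧ x ≤ (2 : ℝ) ^ 2 ^ n := by
    obtain ⟨k, hk⟩ := pow_unbounded_of_one_lt x (show (1 : ℝ) < 2 by norm_num)
    refine ⟨k + 2, by omega, hk.le.trans ?_⟩
    apply pow_le_pow_right₀ (by norm_num)
    have : k + 2 < 2 ^ (k + 2) := Nat.lt_two_pow_self
    omega
  obtain ⟨h2, h3⟩ := Nat.find_spec hex
  refine ⟨Nat.find hex, h2, h3, ?_⟩
  rcases Nat.lt_or_ge 2 (Nat.find hex) with h | h
  · obtain ⟨k, hk⟩ : ∃ k, Nat.find hex = k + 1 := ⟨Nat.find hex - 1, by omega⟩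
    have h4 := Nat.find_min hex (m := k) (by omega)
    have h5 : (2 : ℝ) ^ 2 ^ k < x := by
      by_contra hcon
      exact h4 ⟨by omega, not_lt.1 hcon⟩
    rw [hk, pow_succ, pow_mul]
    calc ((2 : ℝ) ^ 2 ^ k) ^ 2 ≤ x ^ 2 := pow_le_pow_left₀ (by positivity) h5.le 2
      _ ≤ x ^ 4 := pow_le_pow_right₀ (by linarith) (by norm_num)
  · have h4 : Nat.find hex = 2 := le_antisymm h h2
    rw [h4]
    calc (2 : ℝ) ^ 2 ^ 2 ≤ 3 ^ 4 := by norm_num
      _ ≤ x ^ 4 := pow_le_pow_left₀ (by norm_num) hx 4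

/-- the largest level below `x` -/
theorem pick_down (x : ℝ) (hx : 16 ≤ x) : ∃ n : ℕ, 2 ≤ n ∧ (2 : ℝ) ^ 2 ^ n ≤ x ∧
    x ≤ ((2 : ℝ) ^ 2 ^ n) ^ 2 := by
  have hex : ∃ n : ℕ, x < (2 : ℝ) ^ 2 ^ n := by
    obtain ⟨k, hk⟩ := pow_unbounded_of_one_lt x (show (1 : ℝ) < 2 by norm_num)
    refine ⟨k, hk.trans_le ?_⟩
    apply pow_le_pow_right₀ (by norm_num)
    exact (Nat.lt_two_pow_self).le
  have h3 := Nat.find_spec hex
  have hbig : 2 < Nat.find hex := by
    by_contra hcon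
    have h5 : (2 : ℝ) ^ 2 ^ (Nat.find hex) ≤ 2 ^ 2 ^ 2 := by
      apply pow_le_pow_right₀ (by norm_num)
      exact Nat.pow_le_pow_right (by norm_num) (not_lt.1 hcon)
    have h6 : (2 : ℝ) ^ 2 ^ 2 = 16 := by norm_num
    linarith
  obtain ⟨k, hk⟩ : ∃ k, Nat.find hex = k + 1 := ⟨Nat.find hex - 1, by omega⟩
  have h4 := Nat.find_min hex (m := k) (by omega)
  refine ⟨k, by omega, not_lt.1 h4, ?_⟩
  rw [← pow_mul, ← pow_succ, ← hk]
  exact h3.le

/-- counting fields by counting traces -/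
theorem card_split (Y x : ℝ) (m : ℕ) :
    ((EK.FF Y).filter (fun K => EK.wS (nm K) x (tr K).toNat ≤ m)).card =
      ((range (EK.TT Y)).filter (fun t => t ∈ SN 1 Y ∧ EK.wS 1 x t ≤ m)).card +
      ((range (EK.TT Y)).filter (fun t => t ∈ SN (-1) Y ∧ EK.wS (-1) x t ≤ m)).card := by
  have h := EK.sum_split Y (fun N t => if EK.wS N x t ≤ m then (1 : ℂ) else 0)
  rw [Finset.sum_boole, Finset.sum_boole, Finset.sum_boole, Finset.filter_filter,
    Finset.filter_filter] at h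
  exact_mod_cast h

theorem FF_card_le (Y : ℝ) : ((EK.FF Y).card : ℝ) ≤ 2 * EK.TT Y := by
  have h := EK.sum_split Y (fun _ _ => (1 : ℂ))
  simp only [Finset.sum_const, nsmul_eq_mul, mul_one] at h
  have h' : (EK.FF Y).card = ((range (EK.TT Y)).filter (fun t => t ∈ SN 1 Y)).card +
      ((range (EK.TT Y)).filter (fun t => t ∈ SN (-1) Y)).card := by exact_mod_cast h
  have h1 : ((range (EK.TT Y)).filter (fun t => t ∈ SN 1 Y)).card ≤ EK.TT Y := by
    simpa using Finset.card_filter_le (range (EK.TT Y)) (fun t => t ∈ SN 1 Y)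
  have h2 : ((range (EK.TT Y)).filter (fun t => t ∈ SN (-1) Y)).card ≤ EK.TT Y := by
    simpa using Finset.card_filter_le (range (EK.TT Y)) (fun t => t ∈ SN (-1) Y)
  have h3 : (EK.FF Y).card ≤ 2 * EK.TT Y := by omega
  exact_mod_cast h3

theorem FF_card_ge : ∀ᶠ Y : ℝ in atTop, Real.exp Y / 4 ≤ ((EK.FF Y).card : ℝ) := by
  obtain ⟨Y0, hY0⟩ := FY_ge_quarter
  filter_upwards [eventually_ge_atTop Y0] with Y hY
  have h := hY0 Y hY
  have e : (FY Y).ncard = (EK.FF Y).card := by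
    rw [← Set.ncard_coe_finset]
    congr 1
    ext K
    rw [Finset.mem_coe, EK.mem_FF]
  rwa [e] at h

/-- `log log 3` -/
noncomputable def lam0 : ℝ := Real.log (Real.log 3)

theorem log3_gt : 1 < Real.log 3 := by
  have : Real.exp 1 < 3 := Real.exp_one_lt_three
  rw [Real.lt_log_iff_exp_lt (by norm_num)]
  exact this

theorem lam0_pos : 0 < lam0 := Real.log_pos log3_gt

theorem lam_ge {x : ℝ} (hx : 3 ≤ x) : lam0 ≤ Real.log (Real.log x) := by
  unfold lam0
  have h1 : Real.log 3 ≤ Real.log x := Real.log_le_log (by norm_num) hx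
  exact Real.log_le_log (by linarith [log3_gt]) h1

theorem log_gt {x : ℝ} (hx : 3 ≤ x) : 1 < Real.log x :=
  lt_of_lt_of_le log3_gt (Real.log_le_log (by norm_num) hx)

theorem sum_dl_eq (N : ℤ) (n : ℕ) : ∑ p ∈ OP (2 ^ 2 ^ n), EK.dl N p = EK.mu N ((2 : ℝ) ^ 2 ^ n) := by
  unfold EK.mu
  rw [OP_eq]
  congr 2
  have : ((2 : ℝ) ^ 2 ^ n) = ((2 ^ 2 ^ n : ℕ) : ℝ) := by push_cast; rfl
  rw [this, Nat.floor_natCast]

theorem lev_ge (n : ℕ) (hn : 2 ≤ n) : (16 : ℝ) ≤ (2 : ℝ) ^ 2 ^ n := by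
  calc (16 : ℝ) = 2 ^ 2 ^ 2 := by norm_num
    _ ≤ (2 : ℝ) ^ 2 ^ n := by
      apply pow_le_pow_right₀ (by norm_num)
      exact Nat.pow_le_pow_right (by norm_num) hn

/-- upper bound for traces in terms of `x` -/
theorem trace_upper_x (m : ℕ) : ∃ C2 : ℝ, 0 < C2 ∧ ∀ x : ℝ, 16 ≤ x → ∀ N : ℤ, ∀ T : ℕ,
    (((range T).filter (fun t => EK.wS N x t ≤ m)).card : ℝ) ≤
      C2 * (T * ((Real.log (Real.log x)) ^ m / Real.log x)) + C2 * x ^ (250 + 5 * m) := by
  obtain ⟨C1, hC1, hup⟩ := trace_upper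
  obtain ⟨B, hB⟩ : ∃ B : ℝ, B = 2 * (1 + 7 / lam0) := ⟨_, rfl⟩
  have hl0 := lam0_pos
  have hBpos : 0 < B := by rw [hB]; positivity
  have hB1 : 1 ≤ B * lam0 := by
    rw [hB]
    have : 2 * (1 + 7 / lam0) * lam0 = 2 * lam0 + 14 := by
      field_simp
      ring
    rw [this]; linarith
  refine ⟨(1 + 1 / 1000) * (2 * Real.exp 5 * ((m : ℝ) + 1) * B ^ m) + C1 * ((m : ℝ) + 1),
    by positivity, ?_⟩
  intro x hx N T
  obtain ⟨n, hn, hzx, hxz⟩ := pick_down x hx
  have h1 := hup n hn N m T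
  have hlx : 1 < Real.log x := log_gt (by linarith)
  have hz16 := lev_ge n hn
  have hlam := lam_ge (x := x) (by linarith)
  have hT : (0 : ℝ) ≤ T := Nat.cast_nonneg T
  -- comparison of the counts
  have hcmp : (((range T).filter (fun t => EK.wS N x t ≤ m)).card : ℝ) ≤
      (((range T).filter (fun t => EK.aS N (OP (2 ^ 2 ^ n)) t ≤ m)).card : ℝ) := by
    have : (range T).filter (fun t => EK.wS N x t ≤ m) ⊆
        (range T).filter (fun t => EK.aS N (OP (2 ^ 2 ^ n)) t ≤ m) := by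
      intro t ht
      obtain ⟨h2, h3⟩ := Finset.mem_filter.1 ht
      refine Finset.mem_filter.2 ⟨h2, ?_⟩
      have h4 := (EK.wS_bounds N x ((2 : ℝ) ^ 2 ^ n) hzx t).1
      have e : ⌊(2 : ℝ) ^ 2 ^ n⌋₊ = 2 ^ 2 ^ n := by
        have : ((2 : ℝ) ^ 2 ^ n) = ((2 ^ 2 ^ n : ℕ) : ℝ) := by push_cast; rfl
        rw [this, Nat.floor_natCast]
      rw [e, ← OP_eq] at h4
      exact h4.trans h3
    exact_mod_cast Finset.card_le_card this
  -- the sum over `j`
  have hσ0 : 0 ≤ ∑ p ∈ OP (2 ^ 2 ^ n), EK.dl N p := Finset.sum_nonneg (fun p _ => EK.dl_nonneg N p)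
  have hσ : 2 * ∑ p ∈ OP (2 ^ 2 ^ n), EK.dl N p ≤ B * Real.log (Real.log x) := by
    rw [sum_dl_eq]
    have h2 := EK.mu_upper N ((2 : ℝ) ^ 2 ^ n) (by linarith)
    have h3 : Real.log (Real.log ((2 : ℝ) ^ 2 ^ n)) ≤ Real.log (Real.log x) := by
      apply Real.log_le_log
      · exact lt_trans zero_lt_one (log_gt (by linarith))
      · exact Real.log_le_log (by linarith) hzx
    have h4 : 7 ≤ 7 / lam0 * Real.log (Real.log x) := by
      rw [div_mul_eq_mul_div, le_div_iff₀ hl0]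
      nlinarith
    rw [hB]
    nlinarith
  have hBl : 1 ≤ B * Real.log (Real.log x) :=
    hB1.trans (mul_le_mul_of_nonneg_left hlam hBpos.le)
  have hsum : ∑ j ∈ range (m + 1), (2 * ∑ p ∈ OP (2 ^ 2 ^ n), EK.dl N p) ^ j ≤
      ((m : ℝ) + 1) * (B ^ m * (Real.log (Real.log x)) ^ m) := by
    have h2 : ∀ j ∈ range (m + 1), (2 * ∑ p ∈ OP (2 ^ 2 ^ n), EK.dl N p) ^ j ≤
        B ^ m * (Real.log (Real.log x)) ^ m := by
      intro j hj
      have hjm : j ≤ m := by have := Finset.mem_range.1 hj; omega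
      rw [← mul_pow]
      calc (2 * ∑ p ∈ OP (2 ^ 2 ^ n), EK.dl N p) ^ j ≤ (B * Real.log (Real.log x)) ^ j :=
            pow_le_pow_left₀ (by linarith) hσ j
        _ ≤ (B * Real.log (Real.log x)) ^ m := pow_le_pow_right₀ hBl hjm
    refine (Finset.sum_le_sum h2).trans (le_of_eq ?_)
    rw [Finset.sum_const, Finset.card_range, nsmul_eq_mul]
    push_cast
    ring
  have hlz : Real.log x / 2 ≤ Real.log ((2 : ℝ) ^ 2 ^ n) := by
    have h2 : Real.log x ≤ Real.log (((2 : ℝ) ^ 2 ^ n) ^ 2) := Real.log_le_log (by linarith) hxz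
    rw [Real.log_pow] at h2
    push_cast at h2
    linarith
  have hprod : ∏ p ∈ OP (2 ^ 2 ^ n), (1 - EK.dl N p) ≤ 2 * Real.exp 5 / Real.log x := by
    have h2 := prod_up N (2 ^ 2 ^ n) (by
      have : (2 : ℝ) ≤ ((2 ^ 2 ^ n : ℕ) : ℝ) := by push_cast; linarith
      exact_mod_cast this)
    push_cast at h2
    refine h2.trans ?_
    rw [div_le_div_iff₀ (by linarith) (by linarith)]
    have := Real.exp_pos 5
    nlinarith
  have hprod0 : 0 ≤ ∏ p ∈ OP (2 ^ 2 ^ n), (1 - EK.dl N p) := by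
    apply Finset.prod_nonneg
    intro p hp
    have := dl_third N (mem_OP.1 hp).1 (mem_OP.1 hp).2.1
    linarith
  have hlamm : 0 ≤ (Real.log (Real.log x)) ^ m := pow_nonneg (by linarith) m
  have hsum0 : 0 ≤ ∑ j ∈ range (m + 1), (2 * ∑ p ∈ OP (2 ^ 2 ^ n), EK.dl N p) ^ j :=
    Finset.sum_nonneg (fun j _ => pow_nonneg (by linarith) j)
  have hmain : (∏ p ∈ OP (2 ^ 2 ^ n), (1 - EK.dl N p)) *
      ∑ j ∈ range (m + 1), (2 * ∑ p ∈ OP (2 ^ 2 ^ n), EK.dl N p) ^ j ≤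
      (2 * Real.exp 5 * ((m : ℝ) + 1) * B ^ m) * ((Real.log (Real.log x)) ^ m / Real.log x) := by
    calc _ ≤ (2 * Real.exp 5 / Real.log x) *
          (((m : ℝ) + 1) * (B ^ m * (Real.log (Real.log x)) ^ m)) :=
          mul_le_mul hprod hsum hsum0 (by positivity)
      _ = _ := by ring
  have hzpow : ((2 : ℝ) ^ 2 ^ n) ^ (250 + 5 * m) ≤ x ^ (250 + 5 * m) :=
    pow_le_pow_left₀ (by linarith) hzx _
  have hxp : 0 ≤ x ^ (250 + 5 * m) := pow_nonneg (by linarith) _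
  have hr0 : 0 ≤ (Real.log (Real.log x)) ^ m / Real.log x := div_nonneg hlamm (by linarith)
  have g1 := mul_le_mul_of_nonneg_left (mul_le_mul_of_nonneg_left hmain hT)
    (show (0 : ℝ) ≤ 1 + 1 / 1000 by norm_num)
  have hm0 : (0 : ℝ) ≤ (m : ℝ) + 1 := by positivity
  have g2 := mul_le_mul_of_nonneg_left (mul_le_mul_of_nonneg_left hzpow hm0) hC1.le
  have hBm : 0 ≤ B ^ m := pow_nonneg hBpos.le m
  have k1 : 0 ≤ (1 + 1 / 1000) * (2 * Real.exp 5 * ((m : ℝ) + 1) * B ^ m) := by positivity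
  have k2 : 0 ≤ C1 * ((m : ℝ) + 1) := by positivity
  have k3 : 0 ≤ (T : ℝ) * ((Real.log (Real.log x)) ^ m / Real.log x) := mul_nonneg hT hr0
  calc (((range T).filter (fun t => EK.wS N x t ≤ m)).card : ℝ)
      ≤ (1 + 1 / 1000) * (T * ((2 * Real.exp 5 * ((m : ℝ) + 1) * B ^ m) *
          ((Real.log (Real.log x)) ^ m / Real.log x))) +
        C1 * (((m : ℝ) + 1) * x ^ (250 + 5 * m)) := by linarith
    _ = ((1 + 1 / 1000) * (2 * Real.exp 5 * ((m : ℝ) + 1) * B ^ m)) *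
          (T * ((Real.log (Real.log x)) ^ m / Real.log x)) +
        (C1 * ((m : ℝ) + 1)) * x ^ (250 + 5 * m) := by ring
    _ ≤ _ := by nlinarith [mul_nonneg k1 hxp, mul_nonneg k2 k3]

/-- lower bound for traces in terms of `x` -/
theorem trace_lower_x (m : ℕ) : ∃ c : ℝ, 0 < c ∧ ∃ C2 : ℝ, 0 < C2 ∧ ∀ x : ℝ, 3 ≤ x →
    ∀ N : ℤ, (N = 1 ∨ N = -1) → ∀ T : ℕ,
    c * (T * ((Real.log (Real.log x)) ^ m / Real.log x)) - C2 * x ^ (4 * (250 + 5 * m)) ≤
      (((range T).filter (fun t => EK.wS N x t ≤ m)).card : ℝ) := by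
  obtain ⟨C1, hC1, hlo⟩ := trace_lower
  obtain ⟨c, hc⟩ : ∃ c : ℝ, c = (1 - 1 / 1000) * (Real.exp (-8) / 4) /
    ((4 * (2 * ((m : ℝ) + 5))) ^ m * (m.factorial : ℝ)) := ⟨_, rfl⟩
  have hfac : (1 : ℝ) ≤ (m.factorial : ℝ) := by exact_mod_cast Nat.one_le_iff_ne_zero.2 (Nat.factorial_ne_zero m)
  have hm5 : (1 : ℝ) ≤ 2 * ((m : ℝ) + 5) := by
    have : (0 : ℝ) ≤ m := Nat.cast_nonneg m
    linarith
  have hcpos : 0 < c := by
    rw [hc]
    have := Real.exp_pos (-8)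
    positivity
  refine ⟨c, hcpos, C1, hC1, ?_⟩
  intro x hx N hN T
  obtain ⟨n, hn, hxz, hzx⟩ := pick_up x hx
  have hlx : 1 < Real.log x := log_gt hx
  have hz16 := lev_ge n hn
  have hlam := lam_ge hx
  have hl0 := lam0_pos
  have hT : (0 : ℝ) ≤ T := Nat.cast_nonneg T
  have hcmp : ∀ m' ≤ m, (((range T).filter (fun t : ℕ => ((OP (2 ^ 2 ^ n)).filter
      (fun p => LC N p t)).card ≤ m')).card : ℝ) ≤
      (((range T).filter (fun t => EK.wS N x t ≤ m)).card : ℝ) := by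
    intro m' hm'
    have : (range T).filter (fun t : ℕ => ((OP (2 ^ 2 ^ n)).filter
      (fun p => LC N p t)).card ≤ m') ⊆ (range T).filter (fun t => EK.wS N x t ≤ m) := by
      intro t ht
      obtain ⟨h2, h3⟩ := Finset.mem_filter.1 ht
      refine Finset.mem_filter.2 ⟨h2, le_trans ?_ (h3.trans hm')⟩
      unfold EK.wS
      apply Finset.card_le_card
      intro p hp
      obtain ⟨h4, h5⟩ := Finset.mem_filter.1 hp
      refine Finset.mem_filter.2 ⟨?_, h5⟩
      rw [OP_eq]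
      obtain ⟨h6, h7, h8⟩ := mem_oddPrimes.1 h4
      refine mem_oddPrimes.2 ⟨h6, h7, h8.trans ?_⟩
      apply Nat.floor_le_of_le
      push_cast
      exact hxz
    exact_mod_cast Finset.card_le_card this
  have hlz : Real.log ((2 : ℝ) ^ 2 ^ n) ≤ 4 * Real.log x := by
    have h2 : Real.log ((2 : ℝ) ^ 2 ^ n) ≤ Real.log (x ^ 4) := Real.log_le_log (by linarith) hzx
    have h3 : Real.log (x ^ 4) = 4 * Real.log x := by
      rw [Real.log_pow]
      push_cast
      ring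
    linarith
  have hlz1 : 1 < Real.log ((2 : ℝ) ^ 2 ^ n) := log_gt (by linarith)
  have hprod : Real.exp (-8) / 4 / Real.log x ≤ ∏ p ∈ OP (2 ^ 2 ^ n), (1 - gE N p) := by
    have h2 := prod_lo (fun p => if p.Prime ∧ 3 ≤ p then gE N p else 0) (by
      intro p hp h3
      rw [if_pos ⟨hp, h3⟩]
      exact gE_bounds N hN p hp (by omega)) (2 ^ 2 ^ n) (by
      have : (2 : ℝ) ≤ ((2 ^ 2 ^ n : ℕ) : ℝ) := by push_cast; linarith
      exact_mod_cast this)
    have e : ∏ p ∈ OP (2 ^ 2 ^ n), (1 - (fun p => if p.Prime ∧ 3 ≤ p then gE N p else 0) p) =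
        ∏ p ∈ OP (2 ^ 2 ^ n), (1 - gE N p) := by
      apply Finset.prod_congr rfl
      intro p hp
      have h3 := mem_OP.1 hp
      beta_reduce
      rw [if_pos ⟨h3.1, h3.2.1⟩]
    rw [e] at h2
    refine le_trans ?_ h2
    push_cast
    rw [div_div, div_le_div_iff₀ (by linarith) (by linarith)]
    have := Real.exp_pos (-8)
    nlinarith
  have hprod0 : 0 ≤ ∏ p ∈ OP (2 ^ 2 ^ n), (1 - gE N p) := by
    refine le_trans ?_ hprod
    have := Real.exp_pos (-8)
    positivity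
  have hzpow : ((2 : ℝ) ^ 2 ^ n) ^ (250 + 5 * m) ≤ x ^ (4 * (250 + 5 * m)) := by
    rw [pow_mul]
    exact pow_le_pow_left₀ (by linarith) hzx _
  have hxp : 0 ≤ x ^ (4 * (250 + 5 * m)) := pow_nonneg (by linarith) _
  have herr : ∀ m' ≤ m, C1 * ((2 : ℝ) ^ 2 ^ n) ^ (250 + 5 * m') ≤ C1 * x ^ (4 * (250 + 5 * m)) := by
    intro m' hm'
    apply mul_le_mul_of_nonneg_left _ hC1.le
    refine le_trans ?_ hzpow
    exact pow_le_pow_right₀ (by linarith) (by omega)
  rcases le_or_gt (2 * ((m : ℝ) + 5)) (Real.log (Real.log x)) with hbig | hsmall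
  · -- the large case
    have hσ : Real.log (Real.log x) / 2 ≤ ∑ p ∈ OP (2 ^ 2 ^ n), EK.dl N p := by
      rw [sum_dl_eq]
      have h2 := EK.mu_lower' N ((2 : ℝ) ^ 2 ^ n) (by linarith)
      have h3 : Real.log (Real.log x) ≤ Real.log (Real.log ((2 : ℝ) ^ 2 ^ n)) := by
        apply Real.log_le_log (by linarith)
        exact Real.log_le_log (by linarith) hxz
      have : (0 : ℝ) ≤ m := Nat.cast_nonneg m
      linarith
    have h1 := hlo n hn N hN m T (by
      refine le_trans ?_ hσ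
      linarith)
    have hpow : (Real.log (Real.log x) / 4) ^ m ≤
        ((∑ p ∈ OP (2 ^ 2 ^ n), EK.dl N p) / 2) ^ m := by
      apply pow_le_pow_left₀ (by linarith)
      linarith
    have hfp : (0 : ℝ) < m.factorial := by linarith
    have hq : (Real.log (Real.log x)) ^ m / Real.log x *
        (Real.exp (-8) / 4 / ((4 * (2 * ((m : ℝ) + 5))) ^ m * (m.factorial : ℝ))) ≤
        ((∑ p ∈ OP (2 ^ 2 ^ n), EK.dl N p) / 2) ^ m / (m.factorial : ℝ) *
          ∏ p ∈ OP (2 ^ 2 ^ n), (1 - gE N p) := by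
      have hl : 0 ≤ Real.log (Real.log x) / 4 := by linarith
      have h4m : (4 : ℝ) ^ m ≤ (4 * (2 * ((m : ℝ) + 5))) ^ m := by
        apply pow_le_pow_left₀ (by norm_num)
        linarith
      calc (Real.log (Real.log x)) ^ m / Real.log x *
          (Real.exp (-8) / 4 / ((4 * (2 * ((m : ℝ) + 5))) ^ m * (m.factorial : ℝ)))
          ≤ (Real.log (Real.log x)) ^ m / Real.log x *
          (Real.exp (-8) / 4 / ((4 : ℝ) ^ m * (m.factorial : ℝ))) := by
            apply mul_le_mul_of_nonneg_left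
            · apply div_le_div_of_nonneg_left (by positivity) (by positivity)
              exact mul_le_mul_of_nonneg_right h4m hfp.le
            · apply div_nonneg (pow_nonneg (by linarith) m) (by linarith)
        _ = (Real.log (Real.log x) / 4) ^ m / (m.factorial : ℝ) *
            (Real.exp (-8) / 4 / Real.log x) := by
            rw [div_pow]
            field_simp
        _ ≤ _ := by
            apply mul_le_mul
            · exact div_le_div_of_nonneg_right hpow hfp.le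
            · exact hprod
            · have := Real.exp_pos (-8)
              positivity
            · apply div_nonneg (pow_nonneg (by linarith) m) hfp.le
    have g1 := mul_le_mul_of_nonneg_left (mul_le_mul_of_nonneg_left hq hT)
      (show (0 : ℝ) ≤ 1 - 1 / 1000 by norm_num)
    have g2 := herr m (le_refl m)
    have g3 := hcmp m (le_refl m)
    have e : c * (T * ((Real.log (Real.log x)) ^ m / Real.log x)) =
        (1 - 1 / 1000) * (T * ((Real.log (Real.log x)) ^ m / Real.log x *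
        (Real.exp (-8) / 4 / ((4 * (2 * ((m : ℝ) + 5))) ^ m * (m.factorial : ℝ))))) := by
      rw [hc]; ring
    rw [e]
    linarith
  · -- the small case
    have h1 := hlo n hn N hN 0 T (by
      push_cast
      exact Finset.sum_nonneg (fun p _ => EK.dl_nonneg N p))
    rw [pow_zero, Nat.factorial_zero, Nat.cast_one, div_one, one_mul] at h1
    have hq : (Real.log (Real.log x)) ^ m / Real.log x *
        (Real.exp (-8) / 4 / ((4 * (2 * ((m : ℝ) + 5))) ^ m * (m.factorial : ℝ))) ≤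
          ∏ p ∈ OP (2 ^ 2 ^ n), (1 - gE N p) := by
      refine le_trans ?_ hprod
      have h2 : (Real.log (Real.log x)) ^ m ≤ (4 * (2 * ((m : ℝ) + 5))) ^ m * (m.factorial : ℝ) := by
        calc (Real.log (Real.log x)) ^ m ≤ (4 * (2 * ((m : ℝ) + 5))) ^ m := by
              apply pow_le_pow_left₀ (by linarith)
              linarith
          _ = (4 * (2 * ((m : ℝ) + 5))) ^ m * 1 := (mul_one _).symm
          _ ≤ _ := mul_le_mul_of_nonneg_left hfac (by positivity)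
      have hD : 0 < (4 * (2 * ((m : ℝ) + 5))) ^ m * (m.factorial : ℝ) := by positivity
      have he := Real.exp_pos (-8)
      have hD1 : (Real.log (Real.log x)) ^ m / ((4 * (2 * ((m : ℝ) + 5))) ^ m *
        (m.factorial : ℝ)) ≤ 1 := by
        rw [div_le_one hD]; exact h2
      calc (Real.log (Real.log x)) ^ m / Real.log x *
        (Real.exp (-8) / 4 / ((4 * (2 * ((m : ℝ) + 5))) ^ m * (m.factorial : ℝ)))
          = (Real.log (Real.log x)) ^ m / ((4 * (2 * ((m : ℝ) + 5))) ^ m *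
            (m.factorial : ℝ)) * (Real.exp (-8) / 4 / Real.log x) := by ring
        _ ≤ 1 * (Real.exp (-8) / 4 / Real.log x) :=
            mul_le_mul_of_nonneg_right hD1 (by positivity)
        _ = _ := one_mul _
    have g1 := mul_le_mul_of_nonneg_left (mul_le_mul_of_nonneg_left hq hT)
      (show (0 : ℝ) ≤ 1 - 1 / 1000 by norm_num)
    have g2 := herr 0 (Nat.zero_le m)
    have g3 := hcmp 0 (Nat.zero_le m)
    obtain ⟨A, hA⟩ : ∃ A : ℝ, A = C1 * ((2 : ℝ) ^ 2 ^ n) ^ (250 + 5 * 0) := ⟨_, rfl⟩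
    obtain ⟨A', hA'⟩ : ∃ A' : ℝ, A' = C1 * x ^ (4 * (250 + 5 * m)) := ⟨_, rfl⟩
    rw [← hA] at h1 g2
    rw [← hA'] at g2
    rw [← hA']
    have e : c * (T * ((Real.log (Real.log x)) ^ m / Real.log x)) =
        (1 - 1 / 1000) * (T * ((Real.log (Real.log x)) ^ m / Real.log x *
        (Real.exp (-8) / 4 / ((4 * (2 * ((m : ℝ) + 5))) ^ m * (m.factorial : ℝ))))) := by
      rw [hc]; ring
    rw [e]
    linarith

end Pool.Agent.Lib.MP_d470cf_nt.NP
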