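import Pool.Agent.Lib.MP_6b8fc7_nt.G.Fl
import Pool.Agent.Lib.MP_d470cf_nt.EK.Moments

set_option autoImplicit false

open Finset Classical

namespace Pool.Agent.Lib.MP_d470cf_nt.NP

open Pool.Agent.Lib.MP_d470cf_nt Pool.Agent.Lib.MP_d470cf_nt.Loc
open Pool.Agent.CH.S (OP)
open Pool.Agent.BVall (RepB)

/-- product of indicators -/
noncomputable def gD (E : ℕ → ℕ → Prop) (D : Finset ℕ) (t : ℕ) : ℝ := ∏ p ∈ D, ind (E p t)

theorem gD_nonneg (E : ℕ → ℕ → Prop) (D : Finset ℕ) (t : ℕ) : 0 ≤ gD E D t :=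
  Finset.prod_nonneg (fun _ _ => ind_nonneg _)

theorem gD_le_one (E : ℕ → ℕ → Prop) (D : Finset ℕ) (t : ℕ) : gD E D t ≤ 1 :=
  Finset.prod_le_one (fun _ _ => ind_nonneg _) (fun _ _ => ind_le_one _)

theorem gD_period (E : ℕ → ℕ → Prop) (g : ℕ → ℝ) (k : ℕ) (D : Finset ℕ) (hD : ∀ p ∈ D, p.Prime)
    (hE : ∀ p ∈ D, ∀ t, E p (t + p ^ k) ↔ E p t)
    (hs : ∀ p ∈ D, ∑ t ∈ range (p ^ k), ind (E p t) = g p * (p : ℝ) ^ k) :
    Function.Periodic (gD E D) (∏ p ∈ D, p ^ k) ∧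
      ∑ t ∈ range (∏ p ∈ D, p ^ k), gD E D t = ∏ p ∈ D, (g p * (p : ℝ) ^ k) := by
  induction D using Finset.induction_on with
  | empty =>
    constructor
    · intro t; simp [gD]
    · simp [gD]
  | insert p D hp ih =>
    obtain ⟨ih1, ih2⟩ := ih (fun q hq => hD q (mem_insert_of_mem hq))
      (fun q hq => hE q (mem_insert_of_mem hq)) (fun q hq => hs q (mem_insert_of_mem hq))
    have hpp := hD p (mem_insert_self p D)
    have hper : Function.Periodic (fun t => ind (E p t)) (p ^ k) := by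
      intro t
      have := hE p (mem_insert_self p D) t
      simp only [this]
    have hfun : gD E (insert p D) = fun t => ind (E p t) * gD E D t := by
      funext t
      unfold gD
      rw [prod_insert hp]
    have hcop : Nat.Coprime (p ^ k) (∏ q ∈ D, q ^ k) := by
      apply Nat.Coprime.prod_right
      intro q hq
      have hq' := hD q (mem_insert_of_mem hq)
      exact Nat.Coprime.pow k k ((Nat.coprime_primes hpp hq').2 (by rintro rfl; exact hp hq))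
    have hpos : 0 < ∏ q ∈ D, q ^ k :=
      Finset.prod_pos (fun q hq => pow_pos (hD q (mem_insert_of_mem hq)).pos k)
    rw [prod_insert hp, prod_insert hp, hfun]
    constructor
    · intro t
      have e1 : ind (E p (t + p ^ k * ∏ q ∈ D, q ^ k)) = ind (E p t) := by
        have := hper.nat_mul (∏ q ∈ D, q ^ k) t
        rw [Nat.cast_id] at this
        rw [mul_comm (p ^ k)]; exact this
      have e2 : gD E D (t + p ^ k * ∏ q ∈ D, q ^ k) = gD E D t := by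
        have := ih1.nat_mul (p ^ k) t
        rwa [Nat.cast_id] at this
      simp only [e1, e2]
    · rw [sum_crt (fun t => ind (E p t)) (gD E D) _ _ (pow_pos hpp.pos k) hpos hcop hper ih1,
        ih2, hs p (mem_insert_self p D)]

theorem gD_count (E : ℕ → ℕ → Prop) (g : ℕ → ℝ) (k : ℕ) (D : Finset ℕ) (hD : ∀ p ∈ D, p.Prime)
    (hE : ∀ p ∈ D, ∀ t, E p (t + p ^ k) ↔ E p t)
    (hs : ∀ p ∈ D, ∑ t ∈ range (p ^ k), ind (E p t) = g p * (p : ℝ) ^ k) (T : ℕ) :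
    |(∑ t ∈ range T, gD E D t) - T * ∏ p ∈ D, g p| ≤ (∏ p ∈ D, (p : ℝ)) ^ k := by
  obtain ⟨h1, h2⟩ := gD_period E g k D hD hE hs
  have hpos : 0 < ∏ q ∈ D, q ^ k := Finset.prod_pos (fun q hq => pow_pos (hD q hq).pos k)
  have h3 := EK.sum_periodic_bound (gD E D) _ hpos h1 (gD_nonneg E D) (gD_le_one E D) T
  rw [h2] at h3
  have hposR : (0 : ℝ) < ((∏ q ∈ D, q ^ k : ℕ) : ℝ) := by exact_mod_cast hpos
  have e : (∏ p ∈ D, (g p * (p : ℝ) ^ k)) / ((∏ q ∈ D, q ^ k : ℕ) : ℝ) = ∏ p ∈ D, g p := by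
    rw [Finset.prod_mul_distrib, div_eq_iff hposR.ne']
    push_cast
    rfl
  rw [e] at h3
  refine h3.trans (le_of_eq ?_)
  push_cast
  rw [Finset.prod_pow]

theorem card_small (P : Finset ℕ) (hP : ∀ p ∈ P, p.Prime) (L : ℝ) (hL : 0 ≤ L) :
    ((P.powerset.filter (fun S : Finset ℕ => ∏ p ∈ S, (p : ℝ) ≤ L)).card : ℝ) ≤ L := by
  have h : (P.powerset.filter (fun S : Finset ℕ => ∏ p ∈ S, (p : ℝ) ≤ L)).card ≤ (Finset.Icc 1 ⌊L⌋₊).card := by
    apply Finset.card_le_card_of_injOn (fun S => ∏ p ∈ S, p)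
    · intro S hS
      rw [Finset.mem_coe, Finset.mem_filter, Finset.mem_powerset] at hS
      rw [Finset.mem_coe, Finset.mem_Icc]
      refine ⟨Nat.one_le_iff_ne_zero.2 (Finset.prod_ne_zero_iff.2
        (fun p hp => (hP p (hS.1 hp)).ne_zero)), Nat.le_floor ?_⟩
      push_cast
      exact hS.2
    · intro S hS S' hS' h
      rw [Finset.mem_coe, Finset.mem_filter, Finset.mem_powerset] at hS hS'
      have h1 := Nat.primeFactors_prod (s := S) (fun p hp => hP p (hS.1 hp))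
      have h2 := Nat.primeFactors_prod (s := S') (fun p hp => hP p (hS'.1 hp))
      have h3 : ∏ p ∈ S, p = ∏ p ∈ S', p := h
      rw [← h1, ← h2, h3]
  rw [Nat.card_Icc, Nat.add_sub_cancel] at h
  calc ((P.powerset.filter (fun S : Finset ℕ => ∏ p ∈ S, (p : ℝ) ≤ L)).card : ℝ) ≤ (⌊L⌋₊ : ℝ) := by
        exact_mod_cast h
    _ ≤ L := Nat.floor_le hL

theorem rep_sum (E : ℕ → ℕ → Prop) (g : ℕ → ℝ) (k : ℕ) (P : Finset ℕ) (hP : ∀ p ∈ P, p.Prime)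
    (hE : ∀ p ∈ P, ∀ t, E p (t + p ^ k) ↔ E p t)
    (hs : ∀ p ∈ P, ∑ t ∈ range (p ^ k), ind (E p t) = g p * (p : ℝ) ^ k)
    (L : ℝ) (hL : 0 ≤ L) (F : (ℕ → ℝ) → ℝ) (hF : RepB P (fun S => ∏ p ∈ S, (p : ℝ) ≤ L) F)
    (T : ℕ) :
    |(∑ t ∈ range T, F (fun p => ind (E p t))) - T * F g| ≤ L ^ (k + 1) := by
  obtain ⟨c, h1, h2, h3⟩ := hF
  have e : (∑ t ∈ range T, F (fun p => ind (E p t))) - T * F g =
      ∑ S ∈ P.powerset, c S * ((∑ t ∈ range T, gD E S t) - T * ∏ p ∈ S, g p) := by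
    rw [h1 g, Finset.sum_congr rfl (fun t _ => h1 (fun p => ind (E p t))), Finset.sum_comm,
      Finset.mul_sum, ← Finset.sum_sub_distrib]
    apply Finset.sum_congr rfl
    intro S _
    rw [mul_sub, Finset.mul_sum]
    unfold gD
    ring
  rw [e]
  refine (Finset.abs_sum_le_sum_abs _ _).trans ?_
  have hb : ∀ S ∈ P.powerset, |c S * ((∑ t ∈ range T, gD E S t) - T * ∏ p ∈ S, g p)| ≤
      if ∏ p ∈ S, (p : ℝ) ≤ L then L ^ k else 0 := by
    intro S hS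
    have hSP := Finset.mem_powerset.1 hS
    by_cases hc : c S = 0
    · rw [hc, zero_mul, abs_zero]
      split_ifs
      · positivity
      · exact le_refl _
    · have hle := h3 S hS hc
      rw [if_pos hle, abs_mul]
      have h4 := gD_count E g k S (fun p hp => hP p (hSP hp)) (fun p hp => hE p (hSP hp))
        (fun p hp => hs p (hSP hp)) T
      have h5 : (∏ p ∈ S, (p : ℝ)) ^ k ≤ L ^ k :=
        pow_le_pow_left₀ (Finset.prod_nonneg (fun p _ => Nat.cast_nonneg p)) hle k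
      calc |c S| * |(∑ t ∈ range T, gD E S t) - T * ∏ p ∈ S, g p|
          ≤ 1 * L ^ k := mul_le_mul (h2 S) (h4.trans h5) (abs_nonneg _) zero_le_one
        _ = L ^ k := one_mul _
  refine (Finset.sum_le_sum hb).trans ?_
  rw [← Finset.sum_filter, Finset.sum_const, nsmul_eq_mul, pow_succ, mul_comm (L ^ k)]
  exact mul_le_mul_of_nonneg_right (card_small P hP L hL) (by positivity)

theorem prod_one_sub_ind (E : ℕ → ℕ → Prop) (P : Finset ℕ) (t : ℕ) :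
    ∏ p ∈ P, (1 - ind (E p t)) = if ∀ p ∈ P, ¬ E p t then 1 else 0 := by
  split_ifs with h
  · apply Finset.prod_eq_one
    intro p hp
    unfold ind
    rw [if_neg (h p hp)]
    norm_num
  · push Not at h
    obtain ⟨p, hp, hE⟩ := h
    apply Finset.prod_eq_zero hp
    unfold ind
    rw [if_pos hE]
    norm_num

theorem OP_prime {x p : ℕ} (h : p ∈ OP x) : p.Prime := by
  unfold OP at h
  exact (Finset.mem_filter.1 h).2.1

/-- the fundamental lemma for periodic conditions -/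
theorem sift : ∃ C1 : ℝ, 0 < C1 ∧ ∀ m : ℕ, 2 ≤ m → ∀ (E : ℕ → ℕ → Prop) (g : ℕ → ℝ) (k : ℕ),
    k ≤ 4 → Pool.Agent.PSq.Dg g →
    (∀ p : ℕ, p.Prime → p ≠ 2 → ∀ t, E p (t + p ^ k) ↔ E p t) →
    (∀ p : ℕ, p.Prime → p ≠ 2 → ∑ t ∈ range (p ^ k), ind (E p t) = g p * (p : ℝ) ^ k) →
    (∀ p : ℕ, p.Prime → p ≠ 2 → g p ≤ 1) → ∀ T : ℕ,
    (1 - 1 / 1000) * (T * ∏ p ∈ OP (2 ^ 2 ^ m), (1 - g p)) - C1 * ((2 : ℝ) ^ 2 ^ m) ^ 250 ≤
      (((range T).filter (fun t => ∀ p ∈ OP (2 ^ 2 ^ m), ¬ E p t)).card : ℝ) ∧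
    (((range T).filter (fun t => ∀ p ∈ OP (2 ^ 2 ^ m), ¬ E p t)).card : ℝ) ≤
      (1 + 1 / 1000) * (T * ∏ p ∈ OP (2 ^ 2 ^ m), (1 - g p)) + C1 * ((2 : ℝ) ^ 2 ^ m) ^ 250 := by
  obtain ⟨C0, hC0, hfl⟩ := Pool.Agent.PSq.g_fl
  refine ⟨(1 + C0) ^ 5, by positivity, ?_⟩
  intro m hm E g k hk hg hE hs hg1 T
  obtain ⟨Fp, Fm, hp, hm', hpt, hgg⟩ := hfl m hm
  obtain ⟨hg2, hg3⟩ := hgg g hg
  have hodd : ∀ p ∈ OP (2 ^ 2 ^ m), p ≠ 2 := by
    intro p hp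
    unfold OP at hp
    have := (Finset.mem_filter.1 hp).2.2
    omega
  have hz1 : (1 : ℝ) ≤ ((2 : ℝ) ^ 2 ^ m) ^ 50 := one_le_pow₀ (one_le_pow₀ (by norm_num))
  have hL : 0 ≤ C0 * ((2 : ℝ) ^ 2 ^ m) ^ 50 := by positivity
  have herr : (C0 * ((2 : ℝ) ^ 2 ^ m) ^ 50) ^ (k + 1) ≤ (1 + C0) ^ 5 * ((2 : ℝ) ^ 2 ^ m) ^ 250 := by
    calc (C0 * ((2 : ℝ) ^ 2 ^ m) ^ 50) ^ (k + 1)
        ≤ ((1 + C0) * ((2 : ℝ) ^ 2 ^ m) ^ 50) ^ (k + 1) := by
          apply pow_le_pow_left₀ hL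
          apply mul_le_mul_of_nonneg_right (by linarith) (by positivity)
      _ ≤ ((1 + C0) * ((2 : ℝ) ^ 2 ^ m) ^ 50) ^ 5 := by
          apply pow_le_pow_right₀ _ (by omega)
          nlinarith
      _ = (1 + C0) ^ 5 * ((2 : ℝ) ^ 2 ^ m) ^ 250 := by
          rw [mul_pow, ← pow_mul]
  have hcard : (((range T).filter (fun t => ∀ p ∈ OP (2 ^ 2 ^ m), ¬ E p t)).card : ℝ) =
      ∑ t ∈ range T, ∏ p ∈ OP (2 ^ 2 ^ m), (1 - ind (E p t)) := by
    rw [Finset.card_filter]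
    push_cast
    apply Finset.sum_congr rfl
    intro t _
    rw [prod_one_sub_ind]
  have hρ : ∀ t : ℕ, ∀ p ∈ OP (2 ^ 2 ^ m), 0 ≤ ind (E p t) ∧ ind (E p t) ≤ 1 :=
    fun t p _ => ⟨ind_nonneg _, ind_le_one _⟩
  have hT : (0 : ℝ) ≤ T := Nat.cast_nonneg T
  have h1 := rep_sum E g k _ (fun p hp => OP_prime hp) (fun p hp => hE p (OP_prime hp) (hodd p hp))
    (fun p hp => hs p (OP_prime hp) (hodd p hp)) _ hL Fp hp T
  have h2 := rep_sum E g k _ (fun p hp => OP_prime hp) (fun p hp => hE p (OP_prime hp) (hodd p hp))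
    (fun p hp => hs p (OP_prime hp) (hodd p hp)) _ hL Fm hm' T
  rw [abs_le] at h1 h2
  rw [hcard]
  constructor
  · have h3 : ∑ t ∈ range T, Fm (fun p => ind (E p t)) ≤
        ∑ t ∈ range T, ∏ p ∈ OP (2 ^ 2 ^ m), (1 - ind (E p t)) :=
      Finset.sum_le_sum (fun t _ => (hpt _ (hρ t)).1)
    have h4 := mul_le_mul_of_nonneg_left hg3 hT
    have e4 : (T : ℝ) * ((1 - 1 / 1000) * ∏ p ∈ OP (2 ^ 2 ^ m), (1 - g p)) =
      (1 - 1 / 1000) * (T * ∏ p ∈ OP (2 ^ 2 ^ m), (1 - g p)) := by ring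
    linarith [h2.1]
  · have h3 : ∑ t ∈ range T, ∏ p ∈ OP (2 ^ 2 ^ m), (1 - ind (E p t)) ≤
        ∑ t ∈ range T, Fp (fun p => ind (E p t)) :=
      Finset.sum_le_sum (fun t _ => (hpt _ (hρ t)).2)
    have h4 := mul_le_mul_of_nonneg_left hg2 hT
    have e4 : (T : ℝ) * ((1 + 1 / 1000) * ∏ p ∈ OP (2 ^ 2 ^ m), (1 - g p)) =
      (1 + 1 / 1000) * (T * ∏ p ∈ OP (2 ^ 2 ^ m), (1 - g p)) := by ring
    linarith [h1.2]

end Pool.Agent.Lib.MP_d470cf_nt.NP
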