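import Mathlib

set_option autoImplicit false

open Finset

namespace Pool.Agent.Lib.MP_d470cf_nt.NP

theorem geom_le (δ : ℝ) (hδ : 0 < δ) (hδ1 : δ ≤ 1) (I : ℕ) :
    ∑ i ∈ range I, 1 / (1 + δ) ^ i ≤ 2 / δ := by
  have h : ∀ I : ℕ, ∑ i ∈ range I, 1 / (1 + δ) ^ i ≤ (1 + δ) / δ - (1 + δ) / δ / (1 + δ) ^ I := by
    intro I
    induction I with
    | zero => simp
    | succ I ih =>
      rw [Finset.sum_range_succ]
      refine (add_le_add_left ih _).trans (le_of_eq ?_)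
      have h1 : (1 + δ) ^ I ≠ 0 := by positivity
      have h2 : (1 + δ) ≠ 0 := by positivity
      rw [pow_succ]
      field_simp
      ring
  refine (h I).trans ?_
  have h1 : 0 ≤ (1 + δ) / δ / (1 + δ) ^ I := by positivity
  have h2 : (1 + δ) / δ ≤ 2 / δ := div_le_div_of_nonneg_right (by linarith) hδ.le
  linarith

theorem grid_exists (δ L0 Lt : ℝ) (hδ : 0 < δ) (hδ1 : δ ≤ 1) (hL0 : 0 < L0) (hL : L0 ≤ Lt) :
    ∃ G : Finset ℝ, (∀ g ∈ G, L0 ≤ g ∧ g ≤ Lt) ∧ (∑ g ∈ G, 1 / g ≤ 3 / (δ * L0)) ∧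
      ∀ L : ℝ, L0 ≤ L → L ≤ Lt → ∃ g ∈ G, ∃ g' ∈ G, g ≤ L ∧ L ≤ g' ∧ L ≤ (1 + δ) * g ∧
        g' ≤ (1 + δ) * L := by
  have h1δ : (1 : ℝ) < 1 + δ := by linarith
  have hex : ∃ I : ℕ, Lt ≤ L0 * (1 + δ) ^ I := by
    obtain ⟨I, hI⟩ := pow_unbounded_of_one_lt (Lt / L0) h1δ
    refine ⟨I, ?_⟩
    rw [div_lt_iff₀ hL0] at hI
    linarith
  obtain ⟨I, hI⟩ : ∃ I, I = Nat.find hex := ⟨_, rfl⟩
  have hI1 : Lt ≤ L0 * (1 + δ) ^ I := by rw [hI]; exact Nat.find_spec hex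
  have hI2 : ∀ i < I, L0 * (1 + δ) ^ i < Lt := by
    intro i hi
    rw [hI] at hi
    exact not_le.1 (Nat.find_min hex hi)
  have hge : ∀ i : ℕ, L0 ≤ L0 * (1 + δ) ^ i := by
    intro i
    have := one_le_pow₀ h1δ.le (n := i)
    nlinarith
  refine ⟨insert Lt ((range I).image (fun i => L0 * (1 + δ) ^ i)), ?_, ?_, ?_⟩
  · intro g hg
    rcases Finset.mem_insert.1 hg with h | h
    · rw [h]; exact ⟨hL, le_refl _⟩
    · obtain ⟨i, hi, rfl⟩ := Finset.mem_image.1 h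
      exact ⟨hge i, (hI2 i (Finset.mem_range.1 hi)).le⟩
  · rw [Finset.sum_insert, Finset.sum_image]
    · have h1 : ∑ i ∈ range I, 1 / (L0 * (1 + δ) ^ i) = 1 / L0 * ∑ i ∈ range I, 1 / (1 + δ) ^ i := by
        rw [Finset.mul_sum]
        apply Finset.sum_congr rfl
        intro i _
        rw [div_mul_div_comm, one_mul]
      rw [h1]
      have h2 := mul_le_mul_of_nonneg_left (geom_le δ hδ hδ1 I) (show 0 ≤ 1 / L0 by positivity)
      have h3 : 1 / Lt ≤ 1 / L0 := one_div_le_one_div_of_le hL0 hL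
      have h4 : 1 / L0 ≤ 1 / (δ * L0) := by
        apply one_div_le_one_div_of_le (by positivity)
        nlinarith
      have h5 : 1 / L0 * (2 / δ) = 2 * (1 / (δ * L0)) := by
        field_simp
      have h6 : 3 / (δ * L0) = 3 * (1 / (δ * L0)) := by ring
      rw [h6]
      linarith
    · intro i _ j _ hij
      have hij' : L0 * (1 + δ) ^ i = L0 * (1 + δ) ^ j := hij
      have := mul_left_cancel₀ hL0.ne' hij'
      exact pow_right_injective₀ (by linarith) (by linarith) this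
    · intro h
      obtain ⟨i, hi, he⟩ := Finset.mem_image.1 h
      exact absurd he (hI2 i (Finset.mem_range.1 hi)).ne
  · intro L hL1 hL2
    have hexj : ∃ j : ℕ, L < L0 * (1 + δ) ^ j := by
      obtain ⟨j, hj⟩ := pow_unbounded_of_one_lt (L / L0) h1δ
      refine ⟨j, ?_⟩
      rw [div_lt_iff₀ hL0] at hj
      linarith
    obtain ⟨j, hj⟩ : ∃ j, j = Nat.find hexj := ⟨_, rfl⟩
    have hj1 : L < L0 * (1 + δ) ^ j := by rw [hj]; exact Nat.find_spec hexj
    have hj0 : j ≠ 0 := by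
      intro h0
      rw [h0, pow_zero, mul_one] at hj1
      linarith
    obtain ⟨i, rfl⟩ : ∃ i, j = i + 1 := ⟨j - 1, by omega⟩
    have hi1 : L0 * (1 + δ) ^ i ≤ L := by
      have := Nat.find_min hexj (m := i) (by omega)
      exact not_lt.1 this
    rcases Nat.lt_or_ge i I with hiI | hiI
    · refine ⟨L0 * (1 + δ) ^ i, Finset.mem_insert_of_mem
        (Finset.mem_image.2 ⟨i, Finset.mem_range.2 hiI, rfl⟩), ?_⟩
      have e : L0 * (1 + δ) ^ (i + 1) = (1 + δ) * (L0 * (1 + δ) ^ i) := by ring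
      have h9 : (1 + δ) * (L0 * (1 + δ) ^ i) ≤ (1 + δ) * L :=
        mul_le_mul_of_nonneg_left hi1 (by linarith)
      rcases Nat.lt_or_ge (i + 1) I with h | h
      · refine ⟨L0 * (1 + δ) ^ (i + 1), Finset.mem_insert_of_mem
          (Finset.mem_image.2 ⟨i + 1, Finset.mem_range.2 h, rfl⟩), hi1, hj1.le, ?_, ?_⟩
        · rw [← e]; exact hj1.le
        · rw [e]; exact h9
      · have hIe : I = i + 1 := by omega
        refine ⟨Lt, Finset.mem_insert_self _ _, hi1, hL2, ?_, ?_⟩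
        · rw [← e]; exact hj1.le
        · rw [hIe, e] at hI1
          exact hI1.trans h9
    · have h1 : L0 * (1 + δ) ^ I ≤ L0 * (1 + δ) ^ i :=
        mul_le_mul_of_nonneg_left (pow_le_pow_right₀ h1δ.le hiI) hL0.le
      have hLe : L = Lt := le_antisymm hL2 (hI1.trans (h1.trans hi1))
      have hLt : 0 < Lt := by linarith
      refine ⟨Lt, Finset.mem_insert_self _ _, Lt, Finset.mem_insert_self _ _, hLe.ge, hL2, ?_, ?_⟩
      · nlinarith
      · rw [hLe]; nlinarith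

end Pool.Agent.Lib.MP_d470cf_nt.NP
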