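import Pool.Agent.Lib.MP_d470cf_nt.EK.Mertens
import Pool.Agent.Lib.MP_d470cf_nt.Loc.Local
import Pool.Agent.Lib.MP_6b8fc7_nt.G.Fl

set_option autoImplicit false

namespace Pool.Agent.Lib.MP_d470cf_nt.NP

open Pool.Agent.Lib.MP_d470cf_nt Pool.Agent.Lib.MP_d470cf_nt.Loc Finset Classical
open Pool.Agent.CH.S (OP)

theorem OP_eq (x : ℕ) : OP x = oddPrimes x := by
  ext p
  rw [mem_oddPrimes]
  unfold OP
  rw [mem_filter, mem_range]
  constructor
  · rintro ⟨h1, h2, h3⟩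
    exact ⟨by omega, h2, by omega⟩
  · rintro ⟨h1, h2, h3⟩
    have := h2.two_le
    exact ⟨by omega, h2, by omega⟩

theorem prod_up (N : ℤ) (x : ℕ) (hx : 2 ≤ x) :
    ∏ p ∈ OP x, (1 - EK.dl N p) ≤ Real.exp 5 / Real.log x := by
  have hx' : (2 : ℝ) ≤ x := by exact_mod_cast hx
  have hlog : 0 < Real.log x := Real.log_pos (by linarith)
  have h1 : ∏ p ∈ OP x, (1 - EK.dl N p) ≤ Real.exp (-∑ p ∈ OP x, EK.dl N p) := by
    rw [← sum_neg_distrib, Real.exp_sum]
    refine prod_le_prod (fun p hp => ?_) fun p hp => ?_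
    · rw [OP_eq, mem_oddPrimes] at hp
      have h2 := EK.dl_le N p hp.2.1
      have h3 : (1 : ℝ) ≤ p := by exact_mod_cast hp.2.1.one_lt.le
      have h4 : 1 / (p : ℝ) ≤ 1 := by
        rw [div_le_one (by linarith)]
        exact h3
      linarith
    · have := Real.add_one_le_exp (-EK.dl N p)
      linarith
  have h2 := EK.mu_lower' N x hx'
  unfold EK.mu at h2
  rw [Nat.floor_natCast, ← OP_eq] at h2
  refine h1.trans ?_
  have h3 : Real.exp 5 / Real.log x = Real.exp (5 - Real.log (Real.log x)) := by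
    rw [Real.exp_sub, Real.exp_log hlog]
  rw [h3]
  exact Real.exp_le_exp.2 (by linarith)

theorem sum_tel (P : ℕ) (hP : 1 ≤ P) :
    ∑ k ∈ Finset.Icc 2 P, 1 / ((k : ℝ) * ((k : ℝ) - 1)) = 1 - 1 / (P : ℝ) := by
  induction P, hP using Nat.le_induction with
  | base => simp
  | succ P hP ih =>
    rw [Finset.sum_Icc_succ_top (by omega), ih]
    have h0 : (0 : ℝ) < P := by exact_mod_cast hP
    push_cast
    have h1 : (P : ℝ) + 1 - 1 = P := by ring
    rw [h1]
    field_simp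
    ring

theorem prod_lo (g : ℕ → ℝ) (hg : ∀ p : ℕ, p.Prime → 3 ≤ p → 0 ≤ g p ∧ g p ≤ 1 / (p : ℝ))
    (x : ℕ) (hx : 2 ≤ x) : Real.exp (-8) / Real.log x ≤ ∏ p ∈ OP x, (1 - g p) := by
  have hx' : (2 : ℝ) ≤ x := by exact_mod_cast hx
  have hlog : 0 < Real.log x := Real.log_pos (by linarith)
  have hmem : ∀ p ∈ OP x, p.Prime ∧ 3 ≤ p ∧ p ≤ x := by
    intro p hp
    rw [OP_eq, mem_oddPrimes] at hp
    have := hp.2.1.two_le
    exact ⟨hp.2.1, by omega, hp.2.2⟩
  have h1 : Real.exp (-∑ p ∈ OP x, 1 / ((p : ℝ) - 1)) ≤ ∏ p ∈ OP x, (1 - g p) := by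
    rw [← sum_neg_distrib, Real.exp_sum]
    refine prod_le_prod (fun p hp => (Real.exp_pos _).le) fun p hp => ?_
    obtain ⟨hpp, h3, -⟩ := hmem p hp
    have h3' : (3 : ℝ) ≤ p := by exact_mod_cast h3
    have h4 := (hg p hpp h3).2
    have h5 : 1 + 1 / ((p : ℝ) - 1) ≤ Real.exp (1 / ((p : ℝ) - 1)) := by
      have := Real.add_one_le_exp (1 / ((p : ℝ) - 1))
      linarith
    have h6 : Real.exp (-(1 / ((p : ℝ) - 1))) ≤ 1 - 1 / (p : ℝ) := by
      rw [Real.exp_neg]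
      have h7 : (1 - 1 / (p : ℝ)) = (1 + 1 / ((p : ℝ) - 1))⁻¹ := by
        have a1 : (p : ℝ) - 1 ≠ 0 := by
          intro h
          linarith
        have a2 : (p : ℝ) ≠ 0 := by
          intro h
          linarith
        have a3 : 1 + 1 / ((p : ℝ) - 1) = p / (p - 1) := by
          field_simp
          ring
        rw [a3, inv_div]
        field_simp
      rw [h7]
      have h8 : (0 : ℝ) < 1 / ((p : ℝ) - 1) := by
        apply div_pos one_pos
        linarith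
      exact inv_anti₀ (by linarith) h5
    linarith
  have h2 : ∑ p ∈ OP x, 1 / ((p : ℝ) - 1) ≤ Real.log (Real.log x) + 8 := by
    have e : ∀ p ∈ OP x, 1 / ((p : ℝ) - 1) = 1 / (p : ℝ) + 1 / ((p : ℝ) * ((p : ℝ) - 1)) := by
      intro p hp
      obtain ⟨hpp, h3, -⟩ := hmem p hp
      have h3' : (3 : ℝ) ≤ p := by exact_mod_cast h3
      have a1 : (p : ℝ) - 1 ≠ 0 := by
        intro h
        linarith
      have a2 : (p : ℝ) ≠ 0 := by
        intro h
        linarith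
      field_simp
      ring
    rw [sum_congr rfl e, sum_add_distrib]
    have h3 := EK.sum_inv_upper x hx
    rw [← OP_eq] at h3
    have h4 : ∑ p ∈ OP x, 1 / ((p : ℝ) * ((p : ℝ) - 1)) ≤
        ∑ k ∈ Finset.Icc 2 x, 1 / ((k : ℝ) * ((k : ℝ) - 1)) := by
      apply sum_le_sum_of_subset_of_nonneg
      · intro p hp
        obtain ⟨-, h3, h4⟩ := hmem p hp
        exact mem_Icc.2 ⟨by omega, h4⟩
      · intro k hk _
        have : (2 : ℝ) ≤ k := by exact_mod_cast (mem_Icc.1 hk).1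
        have h5 : (0 : ℝ) ≤ (k : ℝ) - 1 := by linarith
        positivity
    rw [sum_tel x (by omega)] at h4
    have h5 : (0 : ℝ) ≤ 1 / (x : ℝ) := by positivity
    linarith
  refine le_trans ?_ h1
  have h3 : Real.exp (-8) / Real.log x = Real.exp (-8 - Real.log (Real.log x)) := by
    rw [Real.exp_sub, Real.exp_log hlog]
  rw [h3]
  exact Real.exp_le_exp.2 (by linarith)

/-- the enlarged local condition -/
def EC (N : ℤ) (p t : ℕ) : Prop := ACond N p t ∨ (p : ℤ) ^ 4 ∣ (t : ℤ) ^ 2 - 4 * N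

/-- the density of the enlarged local condition -/
noncomputable def gE (N : ℤ) (p : ℕ) : ℝ :=
  (nu N p : ℝ) / (p : ℝ) ^ 2 + (sqrts N p : ℝ) / (p : ℝ) ^ 4

theorem LC_imp_EC (N : ℤ) (p t : ℕ) (h : LC N p t) : EC N p t := by
  rcases h with h | ⟨j, hj, h1, -⟩
  · exact Or.inl h
  · exact Or.inr ((pow_dvd_pow _ (by omega)).trans h1)

theorem EC_periodic (N : ℤ) (p : ℕ) (hp : p.Prime) (t : ℕ) : EC N p (t + p ^ 4) ↔ EC N p t := by
  have hA : ACond N p (t + p ^ 4) ↔ ACond N p t := by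
    apply ACond_congr N p hp
    push_cast
    have e : (t : ℤ) + (p : ℤ) ^ 4 - t = (p : ℤ) ^ 4 := by ring
    rw [e]
    exact pow_dvd_pow _ (by omega)
  unfold EC
  rw [hA, periodic_dvd N p 4 4 (le_refl _) t]

theorem EC_sum (N : ℤ) (hN : N = 1 ∨ N = -1) (p : ℕ) (hp : p.Prime) (hp2 : p ≠ 2) :
    ∑ t ∈ range (p ^ 4), ind (EC N p t) = gE N p * (p : ℝ) ^ 4 := by
  have hp0 : (p : ℝ) ≠ 0 := by exact_mod_cast hp.ne_zero
  have h1 : ∀ t ∈ range (p ^ 4), ind (EC N p t) =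
      ind (ACond N p t) + ind ((p : ℤ) ^ 4 ∣ (t : ℤ) ^ 2 - 4 * N) := by
    intro t _
    by_cases hA : ACond N p t
    · have h2 : ¬ (p : ℤ) ^ 4 ∣ (t : ℤ) ^ 2 - 4 * N := fun h =>
        hA.1 ((dvd_pow_self _ (by norm_num)).trans h)
      simp only [ind, EC, if_pos hA, if_neg h2, if_pos (Or.inl hA : ACond N p t ∨ _), add_zero]
    · by_cases hB : (p : ℤ) ^ 4 ∣ (t : ℤ) ^ 2 - 4 * N
      · simp only [ind, EC, if_neg hA, if_pos hB, if_pos (Or.inr hB : ACond N p t ∨ _), zero_add]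
      · have h3 : ¬ (ACond N p t ∨ (p : ℤ) ^ 4 ∣ (t : ℤ) ^ 2 - 4 * N) := by
          rintro (h | h)
          · exact hA h
          · exact hB h
        simp only [ind, EC, if_neg hA, if_neg hB, if_neg h3, add_zero]
  rw [sum_congr rfl h1, sum_add_distrib]
  have hper : Function.Periodic (fun t : ℕ => ind (ACond N p t)) (p ^ 2) := by
    intro t
    have := ACond_periodic N p hp t
    simp only [this]
  have h2 : ∑ t ∈ range (p ^ 2), ind (ACond N p t) = nu N p := by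
    rw [← ACond_count N p hp, Nat.count_eq_card_filter_range, card_filter]
    push_cast
    rfl
  have h3 : ∑ t ∈ range (p ^ 4), ind (ACond N p t) = (p : ℝ) ^ 2 * nu N p := by
    have := sum_mul_range (fun t : ℕ => ind (ACond N p t)) (p ^ 2) hper (p ^ 2)
    rw [h2] at this
    have e : p ^ 4 = p ^ 2 * p ^ 2 := by ring
    rw [e, this]
    push_cast
    ring
  have h4 : ∑ t ∈ range (p ^ 4), ind ((p : ℤ) ^ 4 ∣ (t : ℤ) ^ 2 - 4 * N) = sqrts N p := by
    rw [← root_card N hN p hp hp2 4 (by norm_num), card_filter]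
    push_cast
    apply sum_congr rfl
    intro x _
    unfold ind
    split_ifs <;> rfl
  rw [h3, h4]
  unfold gE
  field_simp

theorem gE_bounds (N : ℤ) (hN : N = 1 ∨ N = -1) (p : ℕ) (hp : p.Prime) (hp2 : p ≠ 2) :
    0 ≤ gE N p ∧ gE N p ≤ 1 / (p : ℝ) := by
  have hp1 : (1 : ℝ) ≤ p := by exact_mod_cast hp.one_lt.le
  have hp0 : (0 : ℝ) < p := by linarith
  refine ⟨by unfold gE; positivity, ?_⟩
  unfold gE
  rw [nu_eq N hN p hp hp2]
  have hs0 : (0 : ℝ) ≤ sqrts N p := Nat.cast_nonneg _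
  have h1 : (sqrts N p : ℝ) / (p : ℝ) ^ 4 ≤ (sqrts N p : ℝ) / (p : ℝ) ^ 2 :=
    div_le_div_of_nonneg_left hs0 (by positivity) (pow_le_pow_right₀ hp1 (by norm_num))
  have h2 : ((p : ℝ) - sqrts N p) / (p : ℝ) ^ 2 = 1 / (p : ℝ) - (sqrts N p : ℝ) / (p : ℝ) ^ 2 := by
    field_simp
  rw [h2]
  linarith

end Pool.Agent.Lib.MP_d470cf_nt.NP
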