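import Pool.Agent.Lib.MP_d470cf_nt.NP.Fin

set_option autoImplicit false

open NumberField Module NumberField.Units Finset Classical Filter Topology

namespace Pool.Agent.Lib.MP_d470cf_nt.NP

open Pool.Agent.Lib.MP_d470cf_nt Pool.Agent.Lib.MP_d470cf_nt.Loc
open Pool.Agent.CH.S (OP)

theorem small_error (C3 δ : ℝ) (hC3 : 0 < C3) (hδ : 0 < δ) : ∀ᶠ Y : ℝ in atTop,
    Y * (C3 * Real.exp (Y / 2) + ((Real.exp (Y / 2) + 2) * 2 * (3 * Y + 1) + 5)) ≤
      δ * Real.exp Y := by
  have h1 : Tendsto (fun Y : ℝ => (Y / 2) ^ 2 * Real.exp (-(Y / 2))) atTop (𝓝 0) :=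
    (Real.tendsto_pow_mul_exp_neg_atTop_nhds_zero 2).comp
      (tendsto_id.atTop_div_const (by norm_num))
  have hpos : 0 < δ / (4 * (C3 + 29)) := by positivity
  filter_upwards [eventually_ge_atTop (1 : ℝ), h1.eventually_lt_const hpos] with Y hY hlt
  have hE1 : 1 ≤ Real.exp (Y / 2) := Real.one_le_exp (by linarith)
  have hE : 0 < Real.exp (Y / 2) := Real.exp_pos _
  have e1 : Real.exp Y = Real.exp (Y / 2) * Real.exp (Y / 2) := by
    rw [← Real.exp_add]; congr 1; ring
  have e2 : Real.exp (-(Y / 2)) * Real.exp (Y / 2) = 1 := by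
    rw [← Real.exp_add, neg_add_cancel, Real.exp_zero]
  have h2 : C3 * Real.exp (Y / 2) + ((Real.exp (Y / 2) + 2) * 2 * (3 * Y + 1) + 5) ≤
      (C3 + 29) * (Y * Real.exp (Y / 2)) := by
    have a1 : C3 * Real.exp (Y / 2) ≤ C3 * (Y * Real.exp (Y / 2)) := by
      apply mul_le_mul_of_nonneg_left _ hC3.le
      nlinarith
    have a2 : (Real.exp (Y / 2) + 2) * 2 * (3 * Y + 1) ≤ 24 * (Y * Real.exp (Y / 2)) := by
      have b1 : Real.exp (Y / 2) + 2 ≤ 3 * Real.exp (Y / 2) := by linarith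
      have b2 : 2 * (3 * Y + 1) ≤ 8 * Y := by linarith
      calc (Real.exp (Y / 2) + 2) * 2 * (3 * Y + 1) = (Real.exp (Y / 2) + 2) * (2 * (3 * Y + 1)) := by
            ring
        _ ≤ (3 * Real.exp (Y / 2)) * (8 * Y) := mul_le_mul b1 b2 (by linarith) (by positivity)
        _ = _ := by ring
    have a3 : (5 : ℝ) ≤ 5 * (Y * Real.exp (Y / 2)) := by nlinarith
    linarith
  have h3 : Y ^ 2 * Real.exp (-(Y / 2)) ≤ δ / (C3 + 29) := by
    have : (Y / 2) ^ 2 * Real.exp (-(Y / 2)) = Y ^ 2 * Real.exp (-(Y / 2)) / 4 := by ring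
    rw [this] at hlt
    have e3 : δ / (4 * (C3 + 29)) = δ / (C3 + 29) / 4 := by
      field_simp
    rw [e3] at hlt
    linarith
  have h4 : (C3 + 29) * (Y ^ 2 * Real.exp (-(Y / 2))) ≤ δ := by
    have := mul_le_mul_of_nonneg_left h3 (show 0 ≤ C3 + 29 by linarith)
    rwa [mul_div_cancel₀ _ (show C3 + 29 ≠ 0 by linarith)] at this
  calc Y * (C3 * Real.exp (Y / 2) + ((Real.exp (Y / 2) + 2) * 2 * (3 * Y + 1) + 5))
      ≤ Y * ((C3 + 29) * (Y * Real.exp (Y / 2))) := mul_le_mul_of_nonneg_left h2 (by linarith)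
    _ = (C3 + 29) * (Y ^ 2 * (Real.exp (-(Y / 2)) * Real.exp (Y / 2))) * Real.exp (Y / 2) := by
        rw [e2]; ring
    _ = ((C3 + 29) * (Y ^ 2 * Real.exp (-(Y / 2)))) * (Real.exp (Y / 2) * Real.exp (Y / 2)) := by
        ring
    _ ≤ δ * (Real.exp (Y / 2) * Real.exp (Y / 2)) := mul_le_mul_of_nonneg_right h4 (by positivity)
    _ = δ * Real.exp Y := by rw [e1]

theorem main (m : ℕ) : ∃ κ : ℝ, 0 < κ ∧ ∃ C : ℝ, 0 < C ∧ ∀ᶠ Y : ℝ in atTop, ∀ x : ℝ, 3 ≤ x →
    x ≤ Real.exp (κ * Y) →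
    (Real.log (Real.log x)) ^ m / (C * Real.log x) ≤
      (((EK.FF Y).filter (fun K => EK.wS (nm K) x (tr K).toNat ≤ m)).card : ℝ) /
        ((EK.FF Y).card : ℝ) ∧
    (((EK.FF Y).filter (fun K => EK.wS (nm K) x (tr K).toNat ≤ m)).card : ℝ) /
        ((EK.FF Y).card : ℝ) ≤ C * (Real.log (Real.log x)) ^ m / Real.log x := by
  obtain ⟨C2, hC2, hup⟩ := trace_upper_x m
  obtain ⟨c, hc, C3, hC3, hlo⟩ := trace_lower_x m
  have hl0 := lam0_pos
  have hl0m : 0 < lam0 ^ m := pow_pos hl0 m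
  obtain ⟨C, hC⟩ : ∃ C : ℝ, C = 16 * C2 + 16 * C2 / lam0 ^ m + 15 / lam0 ^ m + 4 / c := ⟨_, rfl⟩
  have hCpos : 0 < C := by rw [hC]; positivity
  have hM : (0 : ℝ) < 8 * (250 + 5 * (m : ℝ)) := by positivity
  refine ⟨1 / (8 * (250 + 5 * (m : ℝ))), by positivity, C, hCpos, ?_⟩
  filter_upwards [eventually_ge_atTop (1 : ℝ), FF_card_ge,
    small_error C3 (c / 2 * lam0 ^ m) hC3 (by positivity)] with Y hY hF hsm
  intro x hx hxY
  have hx1 : (1 : ℝ) ≤ x := by linarith
  have hlx : 1 < Real.log x := log_gt hx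
  have hlam := lam_ge hx
  have hEY := Real.exp_pos Y
  have hFpos : 0 < ((EK.FF Y).card : ℝ) := lt_of_lt_of_le (by positivity) hF
  have hlogY : Real.log x ≤ Y := by
    have h1 : Real.log x ≤ 1 / (8 * (250 + 5 * (m : ℝ))) * Y := by
      rw [Real.log_le_iff_le_exp (by linarith)]
      exact hxY
    have h2 : 1 / (8 * (250 + 5 * (m : ℝ))) * Y ≤ 1 * Y := by
      apply mul_le_mul_of_nonneg_right _ (by linarith)
      rw [div_le_one hM]
      have : (0 : ℝ) ≤ m := Nat.cast_nonneg m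
      linarith
    linarith
  have hxp4 : x ^ (4 * (250 + 5 * m)) ≤ Real.exp (Y / 2) := by
    calc x ^ (4 * (250 + 5 * m)) ≤ (Real.exp (1 / (8 * (250 + 5 * (m : ℝ))) * Y)) ^ (4 * (250 + 5 * m)) :=
          pow_le_pow_left₀ (by linarith) hxY _
      _ = Real.exp (Y / 2) := by
          rw [← Real.exp_nat_mul]
          congr 1
          push_cast
          field_simp
          ring
  have hxp1 : x ^ (250 + 5 * m) ≤ Real.exp (Y / 2) :=
    (pow_le_pow_right₀ hx1 (by omega)).trans hxp4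
  obtain ⟨R, hR⟩ : ∃ R : ℝ, R = (Real.log (Real.log x)) ^ m / Real.log x := ⟨_, rfl⟩
  have hRY : lam0 ^ m / Y ≤ R := by
    rw [hR]
    calc lam0 ^ m / Y ≤ lam0 ^ m / Real.log x :=
          div_le_div_of_nonneg_left hl0m.le (by linarith) hlogY
      _ ≤ _ := div_le_div_of_nonneg_right (pow_le_pow_left₀ hl0.le hlam m) (by linarith)
  have hR0 : 0 < R := lt_of_lt_of_le (by positivity) hRY
  have hRC : C * (Real.log (Real.log x)) ^ m / Real.log x = C * R := by rw [hR]; ring
  have hRC' : (Real.log (Real.log x)) ^ m / (C * Real.log x) = R / C := by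
    rw [hR, div_div, mul_comm C]
  rw [hRC, hRC']
  have hsplit := card_split Y x m
  have hTge := EK.exp_le_TT Y
  have hTle : (EK.TT Y : ℝ) ≤ 2 * Real.exp Y := by
    have h1 : (EK.TT Y : ℝ) ≤ Real.exp Y + 2 := by
      unfold EK.TT
      push_cast
      linarith [Nat.floor_le hEY.le]
    have h2 : 2 ≤ Real.exp Y := by
      have := Real.add_one_le_exp Y
      linarith
    linarith
  have hTpos := EK.TT_pos Y
  constructor
  · -- lower bound
    have h1 := hlo x hx 1 (Or.inl rfl) (EK.TT Y)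
    rw [← hR] at h1
    have hmiss := missed_bound 1 (Or.inl rfl) Y (by linarith)
    have hTT : EK.TT Y = ⌊Real.exp Y⌋₊ + 2 := rfl
    rw [← hTT] at hmiss
    have hsub : (range (EK.TT Y)).filter (fun t => EK.wS 1 x t ≤ m) ⊆
        (range (EK.TT Y)).filter (fun t => t ∈ SN 1 Y ∧ EK.wS 1 x t ≤ m) ∪
        (range (EK.TT Y)).filter (fun t => t ∉ SN 1 Y) := by
      intro t ht
      obtain ⟨h2, h3⟩ := Finset.mem_filter.1 ht
      rw [Finset.mem_union]
      by_cases h4 : t ∈ SN 1 Y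
      · exact Or.inl (Finset.mem_filter.2 ⟨h2, h4, h3⟩)
      · exact Or.inr (Finset.mem_filter.2 ⟨h2, h4⟩)
    have h5 : (((range (EK.TT Y)).filter (fun t => EK.wS 1 x t ≤ m)).card : ℝ) ≤
        (((range (EK.TT Y)).filter (fun t => t ∈ SN 1 Y ∧ EK.wS 1 x t ≤ m)).card : ℝ) +
        (((range (EK.TT Y)).filter (fun t => t ∉ SN 1 Y)).card : ℝ) := by
      exact_mod_cast (Finset.card_le_card hsub).trans (Finset.card_union_le _ _)
    have h6 : (((range (EK.TT Y)).filter (fun t => t ∈ SN 1 Y ∧ EK.wS 1 x t ≤ m)).card : ℝ) ≤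
        (((EK.FF Y).filter (fun K => EK.wS (nm K) x (tr K).toNat ≤ m)).card : ℝ) := by
      rw [hsplit]
      push_cast
      have : (0 : ℝ) ≤ (((range (EK.TT Y)).filter
        (fun t => t ∈ SN (-1) Y ∧ EK.wS (-1) x t ≤ m)).card : ℝ) := Nat.cast_nonneg _
      linarith
    have h7 : C3 * x ^ (4 * (250 + 5 * m)) ≤ C3 * Real.exp (Y / 2) :=
      mul_le_mul_of_nonneg_left hxp4 hC3.le
    -- the error is at most half of the main term
    have h8 : C3 * Real.exp (Y / 2) + ((Real.exp (Y / 2) + 2) * 2 * (3 * Y + 1) + 5) ≤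
        c / 2 * (EK.TT Y * R) := by
      have g1 : C3 * Real.exp (Y / 2) + ((Real.exp (Y / 2) + 2) * 2 * (3 * Y + 1) + 5) ≤
          c / 2 * lam0 ^ m * Real.exp Y / Y := by
        rw [le_div_iff₀ (by linarith)]
        linarith
      have g2 : c / 2 * lam0 ^ m * Real.exp Y / Y = c / 2 * (Real.exp Y * (lam0 ^ m / Y)) := by
        ring
      have g3 : Real.exp Y * (lam0 ^ m / Y) ≤ EK.TT Y * R :=
        mul_le_mul hTge hRY (by positivity) hTpos.le
      have g4 := mul_le_mul_of_nonneg_left g3 (show 0 ≤ c / 2 by linarith)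
      linarith
    have h9 : c / 2 * (EK.TT Y * R) ≤
        (((EK.FF Y).filter (fun K => EK.wS (nm K) x (tr K).toNat ≤ m)).card : ℝ) := by
      have e : c * (EK.TT Y * R) = c / 2 * (EK.TT Y * R) + c / 2 * (EK.TT Y * R) := by ring
      linarith
    have h10 := FF_card_le Y
    have hcC : 1 / C ≤ c / 4 := by
      have h11 : 4 / c ≤ C := by
        rw [hC]
        have : 0 ≤ 16 * C2 + 16 * C2 / lam0 ^ m + 15 / lam0 ^ m := by positivity
        linarith
      rw [div_le_iff₀ hCpos]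
      rw [div_le_iff₀ hc] at h11
      linarith
    calc R / C = R * (1 / C) := by ring
      _ ≤ R * (c / 4) := mul_le_mul_of_nonneg_left hcC hR0.le
      _ = c / 2 * (EK.TT Y * R) / (2 * EK.TT Y) := by
          field_simp
          ring
      _ ≤ (((EK.FF Y).filter (fun K => EK.wS (nm K) x (tr K).toNat ≤ m)).card : ℝ) /
          (2 * EK.TT Y) := div_le_div_of_nonneg_right h9 (by positivity)
      _ ≤ _ := div_le_div_of_nonneg_left (Nat.cast_nonneg _) hFpos h10
  · -- upper bound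
    have hle1 : (((EK.FF Y).filter (fun K => EK.wS (nm K) x (tr K).toNat ≤ m)).card : ℝ) /
        ((EK.FF Y).card : ℝ) ≤ 1 := by
      rw [div_le_one hFpos]
      exact_mod_cast Finset.card_filter_le _ _
    rcases le_or_gt 16 x with h16 | h16
    · have h1 := hup x h16 1 (EK.TT Y)
      have h2 := hup x h16 (-1) (EK.TT Y)
      rw [← hR] at h1 h2
      have h3 : ∀ N : ℤ, (((range (EK.TT Y)).filter
          (fun t => t ∈ SN N Y ∧ EK.wS N x t ≤ m)).card : ℝ) ≤
          (((range (EK.TT Y)).filter (fun t => EK.wS N x t ≤ m)).card : ℝ) := by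
        intro N
        have : (range (EK.TT Y)).filter (fun t => t ∈ SN N Y ∧ EK.wS N x t ≤ m) ⊆
            (range (EK.TT Y)).filter (fun t => EK.wS N x t ≤ m) := by
          intro t ht
          obtain ⟨a, -, b⟩ := Finset.mem_filter.1 ht
          exact Finset.mem_filter.2 ⟨a, b⟩
        exact_mod_cast Finset.card_le_card this
      have h4 : (((EK.FF Y).filter (fun K => EK.wS (nm K) x (tr K).toNat ≤ m)).card : ℝ) ≤
          2 * (C2 * (EK.TT Y * R) + C2 * Real.exp (Y / 2)) := by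
        rw [hsplit]
        push_cast
        have a1 := h3 1
        have a2 := h3 (-1)
        have a3 := mul_le_mul_of_nonneg_left hxp1 hC2.le
        linarith
      have h5 : Real.exp (Y / 2) ≤ 2 * Real.exp Y / Y := by
        rw [le_div_iff₀ (by linarith)]
        have e1 : Real.exp Y = Real.exp (Y / 2) * Real.exp (Y / 2) := by
          rw [← Real.exp_add]; congr 1; ring
        have e2 := Real.add_one_le_exp (Y / 2)
        have e3 := Real.exp_pos (Y / 2)
        rw [e1]
        nlinarith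
      have h6 : Real.exp (Y / 2) ≤ 2 * Real.exp Y * (R / lam0 ^ m) := by
        refine h5.trans ?_
        have : 1 / Y ≤ R / lam0 ^ m := by
          rw [le_div_iff₀ hl0m]
          calc 1 / Y * lam0 ^ m = lam0 ^ m / Y := by ring
            _ ≤ R := hRY
        calc 2 * Real.exp Y / Y = 2 * Real.exp Y * (1 / Y) := by ring
          _ ≤ _ := mul_le_mul_of_nonneg_left this (by positivity)
      have h7 : (((EK.FF Y).filter (fun K => EK.wS (nm K) x (tr K).toNat ≤ m)).card : ℝ) ≤
          (4 * C2 + 4 * C2 / lam0 ^ m) * R * Real.exp Y := by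
        refine h4.trans ?_
        have b1 : EK.TT Y * R ≤ 2 * Real.exp Y * R := mul_le_mul_of_nonneg_right hTle hR0.le
        have b2 := mul_le_mul_of_nonneg_left b1 hC2.le
        have b3 := mul_le_mul_of_nonneg_left h6 hC2.le
        have e : (4 * C2 + 4 * C2 / lam0 ^ m) * R * Real.exp Y =
          2 * (C2 * (2 * Real.exp Y * R) + C2 * (2 * Real.exp Y * (R / lam0 ^ m))) := by ring
        rw [e]
        linarith
      calc (((EK.FF Y).filter (fun K => EK.wS (nm K) x (tr K).toNat ≤ m)).card : ℝ) /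
            ((EK.FF Y).card : ℝ)
          ≤ (((EK.FF Y).filter (fun K => EK.wS (nm K) x (tr K).toNat ≤ m)).card : ℝ) /
            (Real.exp Y / 4) := div_le_div_of_nonneg_left (Nat.cast_nonneg _) (by positivity) hF
        _ ≤ ((4 * C2 + 4 * C2 / lam0 ^ m) * R * Real.exp Y) / (Real.exp Y / 4) :=
            div_le_div_of_nonneg_right h7 (by positivity)
        _ = (16 * C2 + 16 * C2 / lam0 ^ m) * R := by
            field_simp
            ring
        _ ≤ C * R := by
            apply mul_le_mul_of_nonneg_right _ hR0.le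
            rw [hC]
            have : 0 ≤ 15 / lam0 ^ m + 4 / c := by positivity
            linarith
    · refine hle1.trans ?_
      have h1 : Real.log x ≤ 15 := by
        have := Real.log_le_sub_one_of_pos (show 0 < x by linarith)
        linarith
      have h2 : lam0 ^ m / 15 ≤ R := by
        rw [hR]
        calc lam0 ^ m / 15 ≤ lam0 ^ m / Real.log x :=
              div_le_div_of_nonneg_left hl0m.le (by linarith) h1
          _ ≤ _ := div_le_div_of_nonneg_right (pow_le_pow_left₀ hl0.le hlam m) (by linarith)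
      have h3 : 15 / lam0 ^ m ≤ C := by
        rw [hC]
        have : 0 ≤ 16 * C2 + 16 * C2 / lam0 ^ m + 4 / c := by positivity
        linarith
      calc (1 : ℝ) = 15 / lam0 ^ m * (lam0 ^ m / 15) := by field_simp
        _ ≤ C * R := mul_le_mul h3 h2 (by positivity) hCpos.le

end Pool.Agent.Lib.MP_d470cf_nt.NP
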