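import Pool.Agent.Lib.MP_d470cf_nt.NP.Gen

set_option autoImplicit false

open Finset Classical

namespace Pool.Agent.Lib.MP_d470cf_nt.NP

open Pool.Agent.Lib.MP_d470cf_nt Pool.Agent.Lib.MP_d470cf_nt.Loc
open Pool.Agent.CH.S (OP)
open Pool.Agent.BVall (RepB)

/-- the variables with those of `S` put to zero -/
noncomputable def off (S : Finset ℕ) (a : ℕ → ℝ) : ℕ → ℝ := fun p => if p ∈ S then 0 else a p

theorem prod_off_sub (P S : Finset ℕ) (a : ℕ → ℝ) :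
    ∏ p ∈ P, (1 - off S a p) = ∏ p ∈ P \ S, (1 - a p) := by
  have h : ∏ p ∈ P \ S, (1 - off S a p) = ∏ p ∈ P, (1 - off S a p) := by
    apply Finset.prod_subset Finset.sdiff_subset
    intro p hp hn
    have : p ∈ S := by
      by_contra h
      exact hn (Finset.mem_sdiff.2 ⟨hp, h⟩)
    unfold off
    rw [if_pos this, sub_zero]
  rw [← h]
  apply Finset.prod_congr rfl
  intro p hp
  unfold off
  rw [if_neg (Finset.mem_sdiff.1 hp).2]

theorem prod_mul_off (S U : Finset ℕ) (b a : ℕ → ℝ) (hba : ∀ p ∈ S, b p = a p) :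
    (∏ p ∈ S, b p) * ∏ p ∈ U, off S a p = if Disjoint S U then ∏ p ∈ S ∪ U, a p else 0 := by
  split_ifs with h
  · rw [Finset.prod_union h, Finset.prod_congr rfl hba]
    congr 1
    apply Finset.prod_congr rfl
    intro p hp
    unfold off
    rw [if_neg (fun hS => (Finset.disjoint_left.1 h) hS hp)]
  · rw [Finset.not_disjoint_iff] at h
    obtain ⟨p, hS, hU⟩ := h
    rw [Finset.prod_eq_zero hU (by unfold off; rw [if_pos hS]), mul_zero]

theorem rep_sum_S (E : ℕ → ℕ → Prop) (g : ℕ → ℝ) (k : ℕ) (P : Finset ℕ) (hP : ∀ p ∈ P, p.Prime)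
    (hE : ∀ p ∈ P, ∀ t, E p (t + p ^ k) ↔ E p t)
    (hs : ∀ p ∈ P, ∑ t ∈ range (p ^ k), ind (E p t) = g p * (p : ℝ) ^ k)
    (S : Finset ℕ) (hS : S ⊆ P)
    (L : ℝ) (hL : 0 ≤ L) (F : (ℕ → ℝ) → ℝ) (hF : RepB P (fun S => ∏ p ∈ S, (p : ℝ) ≤ L) F)
    (T : ℕ) :
    |(∑ t ∈ range T, gD E S t * F (off S (fun p => ind (E p t)))) -
      T * ((∏ p ∈ S, g p) * F (off S g))| ≤ (∏ p ∈ S, (p : ℝ)) ^ k * L ^ (k + 1) := by
  obtain ⟨c, h1, h2, h3⟩ := hF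
  have e1 : ∀ t, gD E S t * F (off S (fun p => ind (E p t))) =
      ∑ U ∈ P.powerset, c U * (if Disjoint S U then gD E (S ∪ U) t else 0) := by
    intro t
    rw [h1, Finset.mul_sum]
    apply Finset.sum_congr rfl
    intro U _
    unfold gD
    rw [← prod_mul_off S U (fun p => ind (E p t)) (fun p => ind (E p t)) (fun _ _ => rfl)]
    ring
  have e2 : (∏ p ∈ S, g p) * F (off S g) =
      ∑ U ∈ P.powerset, c U * (if Disjoint S U then ∏ p ∈ S ∪ U, g p else 0) := by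
    rw [h1, Finset.mul_sum]
    apply Finset.sum_congr rfl
    intro U _
    rw [← prod_mul_off S U g g (fun _ _ => rfl)]
    ring
  have e : (∑ t ∈ range T, gD E S t * F (off S (fun p => ind (E p t)))) -
      T * ((∏ p ∈ S, g p) * F (off S g)) =
      ∑ U ∈ P.powerset, c U * (if Disjoint S U then
        ((∑ t ∈ range T, gD E (S ∪ U) t) - T * ∏ p ∈ S ∪ U, g p) else 0) := by
    rw [Finset.sum_congr rfl (fun t _ => e1 t), e2, Finset.sum_comm,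
      Finset.mul_sum, ← Finset.sum_sub_distrib]
    apply Finset.sum_congr rfl
    intro U _
    split_ifs with h
    · rw [mul_sub, Finset.mul_sum]
      ring
    · simp
  rw [e]
  refine (Finset.abs_sum_le_sum_abs _ _).trans ?_
  have hSp : (0 : ℝ) ≤ ∏ p ∈ S, (p : ℝ) := Finset.prod_nonneg (fun p _ => Nat.cast_nonneg p)
  have hb : ∀ U ∈ P.powerset, |c U * (if Disjoint S U then
        ((∑ t ∈ range T, gD E (S ∪ U) t) - T * ∏ p ∈ S ∪ U, g p) else 0)| ≤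
      if ∏ p ∈ U, (p : ℝ) ≤ L then (∏ p ∈ S, (p : ℝ)) ^ k * L ^ k else 0 := by
    intro U hU
    have hUP := Finset.mem_powerset.1 hU
    have hnn : (0 : ℝ) ≤ if ∏ p ∈ U, (p : ℝ) ≤ L then (∏ p ∈ S, (p : ℝ)) ^ k * L ^ k else 0 := by
      split_ifs
      · positivity
      · exact le_refl _
    by_cases hc : c U = 0
    · rw [hc, zero_mul, abs_zero]
      exact hnn
    by_cases hd : Disjoint S U
    · have hle := h3 U hU hc
      rw [if_pos hle, if_pos hd, abs_mul]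
      have hsub : S ∪ U ⊆ P := Finset.union_subset hS hUP
      have h4 := gD_count E g k (S ∪ U) (fun p hp => hP p (hsub hp)) (fun p hp => hE p (hsub hp))
        (fun p hp => hs p (hsub hp)) T
      rw [Finset.prod_union hd (f := fun p : ℕ => (p : ℝ)), mul_pow] at h4
      have h5 : (∏ p ∈ U, (p : ℝ)) ^ k ≤ L ^ k :=
        pow_le_pow_left₀ (Finset.prod_nonneg (fun p _ => Nat.cast_nonneg p)) hle k
      calc |c U| * |(∑ t ∈ range T, gD E (S ∪ U) t) - T * ∏ p ∈ S ∪ U, g p|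
          ≤ 1 * ((∏ p ∈ S, (p : ℝ)) ^ k * L ^ k) :=
            mul_le_mul (h2 U) (h4.trans (mul_le_mul_of_nonneg_left h5 (by positivity)))
              (abs_nonneg _) zero_le_one
        _ = _ := one_mul _
    · rw [if_neg hd, mul_zero, abs_zero]
      exact hnn
  refine (Finset.sum_le_sum hb).trans ?_
  rw [← Finset.sum_filter, Finset.sum_const, nsmul_eq_mul, pow_succ]
  calc (((P.powerset.filter (fun S : Finset ℕ => ∏ p ∈ S, (p : ℝ) ≤ L)).card : ℕ) : ℝ) *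
        ((∏ p ∈ S, (p : ℝ)) ^ k * L ^ k) ≤ L * ((∏ p ∈ S, (p : ℝ)) ^ k * L ^ k) :=
        mul_le_mul_of_nonneg_right (card_small P hP L hL) (by positivity)
    _ = _ := by ring

/-- the pattern: the conditions of `S` hold, the others do not -/
def Pt (E : ℕ → ℕ → Prop) (P S : Finset ℕ) (t : ℕ) : Prop :=
  (∀ p ∈ S, E p t) ∧ ∀ p ∈ P \ S, ¬ E p t

theorem pat_eq (E : ℕ → ℕ → Prop) (P S : Finset ℕ) (t : ℕ) :
    gD E S t * ∏ p ∈ P, (1 - off S (fun p => ind (E p t)) p) = if Pt E P S t then 1 else 0 := by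
  rw [prod_off_sub, prod_one_sub_ind]
  unfold Pt
  by_cases h1 : ∀ p ∈ S, E p t
  · have : gD E S t = 1 := by
      apply Finset.prod_eq_one
      intro p hp
      unfold ind
      rw [if_pos (h1 p hp)]
    rw [this, one_mul]
    by_cases h2 : ∀ p ∈ P \ S, ¬ E p t
    · rw [if_pos h2, if_pos ⟨h1, h2⟩]
    · rw [if_neg h2, if_neg (fun h => h2 h.2)]
  · have : gD E S t = 0 := by
      push Not at h1
      obtain ⟨p, hp, hE⟩ := h1
      apply Finset.prod_eq_zero hp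
      unfold ind
      rw [if_neg hE]
    rw [this, zero_mul, if_neg (fun h => h1 h.1)]

/-- the fundamental lemma for patterns of periodic conditions -/
theorem sift_S : ∃ C1 : ℝ, 0 < C1 ∧ ∀ n : ℕ, 2 ≤ n → ∀ (E : ℕ → ℕ → Prop) (g : ℕ → ℝ) (k : ℕ),
    k ≤ 4 → Pool.Agent.PSq.Dg g →
    (∀ p : ℕ, p.Prime → p ≠ 2 → ∀ t, E p (t + p ^ k) ↔ E p t) →
    (∀ p : ℕ, p.Prime → p ≠ 2 → ∑ t ∈ range (p ^ k), ind (E p t) = g p * (p : ℝ) ^ k) →
    ∀ S : Finset ℕ, S ⊆ OP (2 ^ 2 ^ n) → ∀ T : ℕ,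
    (1 - 1 / 1000) * (T * ((∏ p ∈ S, g p) * ∏ p ∈ OP (2 ^ 2 ^ n) \ S, (1 - g p))) -
        C1 * ((∏ p ∈ S, (p : ℝ)) ^ 4 * ((2 : ℝ) ^ 2 ^ n) ^ 250) ≤
      (((range T).filter (fun t => Pt E (OP (2 ^ 2 ^ n)) S t)).card : ℝ) ∧
    (((range T).filter (fun t => Pt E (OP (2 ^ 2 ^ n)) S t)).card : ℝ) ≤
      (1 + 1 / 1000) * (T * ((∏ p ∈ S, g p) * ∏ p ∈ OP (2 ^ 2 ^ n) \ S, (1 - g p))) +
        C1 * ((∏ p ∈ S, (p : ℝ)) ^ 4 * ((2 : ℝ) ^ 2 ^ n) ^ 250) := by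
  obtain ⟨C0, hC0, hfl⟩ := Pool.Agent.PSq.g_fl
  refine ⟨(1 + C0) ^ 5, by positivity, ?_⟩
  intro m hm E g k hk hg hE hs S hS T
  obtain ⟨Fp, Fm, hp, hm', hpt, hgg⟩ := hfl m hm
  have hg' : Pool.Agent.PSq.Dg (off S g) := by
    intro p hp h3
    unfold off
    split_ifs
    · exact ⟨le_refl _, by positivity⟩
    · exact hg p hp h3
  obtain ⟨hg2, hg3⟩ := hgg (off S g) hg'
  have hodd : ∀ p ∈ OP (2 ^ 2 ^ m), p ≠ 2 := by
    intro p hp
    unfold OP at hp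
    have := (Finset.mem_filter.1 hp).2.2
    omega
  have hz1 : (1 : ℝ) ≤ ((2 : ℝ) ^ 2 ^ m) ^ 50 := one_le_pow₀ (one_le_pow₀ (by norm_num))
  have hL : 0 ≤ C0 * ((2 : ℝ) ^ 2 ^ m) ^ 50 := by positivity
  have hS1 : (1 : ℝ) ≤ ∏ p ∈ S, (p : ℝ) := by
    have : ∏ _p ∈ S, (1 : ℝ) ≤ ∏ p ∈ S, (p : ℝ) :=
      Finset.prod_le_prod (fun _ _ => zero_le_one)
        (fun p hp => by exact_mod_cast (OP_prime (hS hp)).one_lt.le)
    simpa using this
  have herr0 : (C0 * ((2 : ℝ) ^ 2 ^ m) ^ 50) ^ (k + 1) ≤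
      (1 + C0) ^ 5 * ((2 : ℝ) ^ 2 ^ m) ^ 250 := by
    calc (C0 * ((2 : ℝ) ^ 2 ^ m) ^ 50) ^ (k + 1)
        ≤ ((1 + C0) * ((2 : ℝ) ^ 2 ^ m) ^ 50) ^ (k + 1) := by
          apply pow_le_pow_left₀ hL
          apply mul_le_mul_of_nonneg_right (by linarith) (by positivity)
      _ ≤ ((1 + C0) * ((2 : ℝ) ^ 2 ^ m) ^ 50) ^ 5 := by
          apply pow_le_pow_right₀ _ (by omega)
          nlinarith
      _ = (1 + C0) ^ 5 * ((2 : ℝ) ^ 2 ^ m) ^ 250 := by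
          rw [mul_pow, ← pow_mul]
  have herr : (∏ p ∈ S, (p : ℝ)) ^ k * (C0 * ((2 : ℝ) ^ 2 ^ m) ^ 50) ^ (k + 1) ≤
      (1 + C0) ^ 5 * ((∏ p ∈ S, (p : ℝ)) ^ 4 * ((2 : ℝ) ^ 2 ^ m) ^ 250) := by
    calc (∏ p ∈ S, (p : ℝ)) ^ k * (C0 * ((2 : ℝ) ^ 2 ^ m) ^ 50) ^ (k + 1)
        ≤ (∏ p ∈ S, (p : ℝ)) ^ 4 * ((1 + C0) ^ 5 * ((2 : ℝ) ^ 2 ^ m) ^ 250) :=
          mul_le_mul (pow_le_pow_right₀ hS1 hk) herr0 (by positivity) (by positivity)
      _ = _ := by ring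
  have hcard : (((range T).filter (fun t => Pt E (OP (2 ^ 2 ^ m)) S t)).card : ℝ) =
      ∑ t ∈ range T, gD E S t * ∏ p ∈ OP (2 ^ 2 ^ m), (1 - off S (fun p => ind (E p t)) p) := by
    rw [Finset.card_filter]
    push_cast
    apply Finset.sum_congr rfl
    intro t _
    rw [pat_eq]
  have hρ : ∀ t : ℕ, ∀ p ∈ OP (2 ^ 2 ^ m), 0 ≤ off S (fun p => ind (E p t)) p ∧
      off S (fun p => ind (E p t)) p ≤ 1 := by
    intro t p _
    unfold off
    split_ifs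
    · exact ⟨le_refl _, zero_le_one⟩
    · exact ⟨ind_nonneg _, ind_le_one _⟩
  have hT : (0 : ℝ) ≤ T := Nat.cast_nonneg T
  have hgS : 0 ≤ ∏ p ∈ S, g p := by
    apply Finset.prod_nonneg
    intro p hp
    have hpp := OP_prime (hS hp)
    have := hodd p (hS hp)
    exact (hg p hpp (by have := hpp.two_le; omega)).1
  have h1 := rep_sum_S E g k _ (fun p hp => OP_prime hp)
    (fun p hp => hE p (OP_prime hp) (hodd p hp))
    (fun p hp => hs p (OP_prime hp) (hodd p hp)) S hS _ hL Fp hp T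
  have h2 := rep_sum_S E g k _ (fun p hp => OP_prime hp)
    (fun p hp => hE p (OP_prime hp) (hodd p hp))
    (fun p hp => hs p (OP_prime hp) (hodd p hp)) S hS _ hL Fm hm' T
  rw [abs_le] at h1 h2
  rw [hcard]
  rw [prod_off_sub] at hg2 hg3
  constructor
  · have h3 : ∑ t ∈ range T, gD E S t * Fm (off S (fun p => ind (E p t))) ≤
        ∑ t ∈ range T, gD E S t * ∏ p ∈ OP (2 ^ 2 ^ m), (1 - off S (fun p => ind (E p t)) p) :=
      Finset.sum_le_sum (fun t _ => mul_le_mul_of_nonneg_left (hpt _ (hρ t)).1 (gD_nonneg E S t))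
    have h4 := mul_le_mul_of_nonneg_left (mul_le_mul_of_nonneg_left hg3 hgS) hT
    have e4 : (T : ℝ) * ((∏ p ∈ S, g p) * ((1 - 1 / 1000) * ∏ p ∈ OP (2 ^ 2 ^ m) \ S, (1 - g p))) =
      (1 - 1 / 1000) * (T * ((∏ p ∈ S, g p) * ∏ p ∈ OP (2 ^ 2 ^ m) \ S, (1 - g p))) := by ring
    linarith [h2.1]
  · have h3 : ∑ t ∈ range T, gD E S t * ∏ p ∈ OP (2 ^ 2 ^ m),
        (1 - off S (fun p => ind (E p t)) p) ≤
        ∑ t ∈ range T, gD E S t * Fp (off S (fun p => ind (E p t))) :=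
      Finset.sum_le_sum (fun t _ => mul_le_mul_of_nonneg_left (hpt _ (hρ t)).2 (gD_nonneg E S t))
    have h4 := mul_le_mul_of_nonneg_left (mul_le_mul_of_nonneg_left hg2 hgS) hT
    have e4 : (T : ℝ) * ((∏ p ∈ S, g p) * ((1 + 1 / 1000) * ∏ p ∈ OP (2 ^ 2 ^ m) \ S, (1 - g p))) =
      (1 + 1 / 1000) * (T * ((∏ p ∈ S, g p) * ∏ p ∈ OP (2 ^ 2 ^ m) \ S, (1 - g p))) := by ring
    linarith [h1.2]

end Pool.Agent.Lib.MP_d470cf_nt.NP
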