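import Pool.Agent.Lib.MP_d470cf_nt.EK.Mertens
import Pool.Agent.Lib.MP_d470cf_nt.Moment
import Pool.Agent.Lib.MP_d470cf_nt.Bad

set_option autoImplicit false

namespace Pool.Agent.Lib.MP_d470cf_nt.NP

open Pool.Agent.Lib.MP_d470cf_nt Pool.Agent.Lib.MP_d470cf_nt.Loc Finset Classical

theorem var_bound (N : ℤ) (x : ℝ) (hx : 2 ≤ x) (T : ℕ) (hT : x ^ 4 ≤ T) :
    ∑ t ∈ range T, ((EK.aS N (oddPrimes ⌊x⌋₊) t : ℝ) - EK.mu N x) ^ 2 ≤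
      T * (3 * EK.mu N x + 2) := by
  have hx0 : 0 ≤ x := by linarith
  obtain ⟨W, hW⟩ : ∃ W : ℝ, W = ∑ p ∈ oddPrimes ⌊x⌋₊, (nu N p : ℝ) := ⟨_, rfl⟩
  have h1 := second_moment (oddPrimes ⌊x⌋₊) (ACond N) (nu N)
    (fun p hp => (mem_oddPrimes.1 hp).2.1.pos)
    (fun p hp => ACond_periodic N p (mem_oddPrimes.1 hp).2.1)
    (fun p hp => ACond_count N p (mem_oddPrimes.1 hp).2.1)
    (fun p hp q hq hpq => ACond_pair N p q (mem_oddPrimes.1 hp).2.1 (mem_oddPrimes.1 hq).2.1 hpq)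
    T (EK.mu N x) W rfl hW
  have hμ0 := EK.mu_nonneg N x
  have hW0 : 0 ≤ W := by
    rw [hW]
    exact sum_nonneg fun p _ => Nat.cast_nonneg _
  have hfl : (⌊x⌋₊ : ℝ) ≤ x := Nat.floor_le hx0
  have hWx : W ≤ x ^ 2 := by
    have h2 := W_upper N ⌊x⌋₊
    rw [← hW] at h2
    exact h2.trans (pow_le_pow_left₀ (Nat.cast_nonneg _) hfl 2)
  have hx2 : (1 : ℝ) ≤ x ^ 2 := by nlinarith
  have hx4 : x ^ 2 ≤ x ^ 4 := by nlinarith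
  have hW2 : W ^ 2 ≤ T := by
    have h2 : W ^ 2 ≤ (x ^ 2) ^ 2 := pow_le_pow_left₀ hW0 hWx 2
    have h3 : (x ^ 2) ^ 2 = x ^ 4 := by ring
    linarith
  have hW1 : W ≤ T := by linarith
  have hμW : EK.mu N x * W ≤ EK.mu N x * T := mul_le_mul_of_nonneg_left hW1 hμ0
  have h3 : ∑ t ∈ range T, ((EK.aS N (oddPrimes ⌊x⌋₊) t : ℝ) - EK.mu N x) ^ 2 ≤
      T * EK.mu N x + W ^ 2 + W + 2 * EK.mu N x * W := by
    refine le_trans (le_of_eq ?_) h1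
    apply sum_congr rfl
    intro t _
    unfold EK.aS
    congr 3
  nlinarith

theorem quart_bound (N : ℤ) (hN : N = 1 ∨ N = -1) (x : ℝ) (hx : 2 ≤ x) (T : ℕ) :
    ∑ t ∈ range T, (((oddPrimes ⌊x⌋₊).filter
      (fun p : ℕ => (p : ℤ) ^ 4 ∣ (t : ℤ) ^ 2 - 4 * N)).card : ℝ) ≤ 2 * T + 2 * x := by
  have hx0 : 0 ≤ x := by linarith
  have hT0 : (0 : ℝ) ≤ T := Nat.cast_nonneg T
  have hcard := EK.card_oddPrimes_le x hx0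
  simp only [EK.card_filter_ind]
  rw [sum_comm]
  have h3 : ∑ p ∈ oddPrimes ⌊x⌋₊, ∑ t ∈ range T, ind ((p : ℤ) ^ 4 ∣ (t : ℤ) ^ 2 - 4 * N) ≤
      ∑ p ∈ oddPrimes ⌊x⌋₊, (2 * T * (1 / (p : ℝ) ^ 2) + 2) := by
    apply sum_le_sum
    intro p hp
    obtain ⟨hp2, hpp, -⟩ := mem_oddPrimes.1 hp
    exact EK.cnt4_upper N hN p hpp hp2 T
  refine h3.trans ?_
  rw [sum_add_distrib, ← mul_sum, sum_const, nsmul_eq_mul]
  have h4 : ∑ p ∈ oddPrimes ⌊x⌋₊, 1 / (p : ℝ) ^ 2 ≤ 1 := by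
    have h5 : ∑ p ∈ oddPrimes ⌊x⌋₊, 1 / (p : ℝ) ^ 2 ≤
        ∑ k ∈ Finset.Icc 2 ⌊x⌋₊, 1 / (k : ℝ) ^ 2 := by
      apply sum_le_sum_of_subset_of_nonneg
      · intro p hp
        obtain ⟨-, hpp, hpx⟩ := mem_oddPrimes.1 hp
        exact mem_Icc.2 ⟨hpp.two_le, hpx⟩
      · intro k _ _; positivity
    have h6 := sum_inv_sq ⌊x⌋₊ (Nat.le_floor (by push_cast; linarith))
    have h7 : (0 : ℝ) ≤ 1 / (⌊x⌋₊ : ℝ) := by positivity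
    linarith
  have h5 := mul_le_mul_of_nonneg_left h4 (show (0 : ℝ) ≤ 2 * T by positivity)
  nlinarith

end Pool.Agent.Lib.MP_d470cf_nt.NP
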