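import Pool.Agent.Lib.MP_d470cf_nt.NP.Grid
import Pool.Agent.Lib.MP_d470cf_nt.NP.Var
import Pool.Agent.Lib.MP_d470cf_nt.EK.Transfer

set_option autoImplicit false

open NumberField Module NumberField.Units Finset Classical Filter Topology

namespace Pool.Agent.Lib.MP_d470cf_nt.NP

open Pool.Agent.Lib.MP_d470cf_nt Pool.Agent.Lib.MP_d470cf_nt.Loc

/-- the number of primes with a fourth power in the discriminant -/
noncomputable def qS (N : ℤ) (x : ℝ) (t : ℕ) : ℕ :=
  ((oddPrimes ⌊x⌋₊).filter (fun p : ℕ => (p : ℤ) ^ 4 ∣ (t : ℤ) ^ 2 - 4 * N)).card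

theorem oddPrimes_mono {x y : ℝ} (h : x ≤ y) : oddPrimes ⌊x⌋₊ ⊆ oddPrimes ⌊y⌋₊ := by
  intro p hp
  obtain ⟨h1, h2, h3⟩ := mem_oddPrimes.1 hp
  exact mem_oddPrimes.2 ⟨h1, h2, h3.trans (Nat.floor_mono h)⟩

theorem aS_mono (N : ℤ) {x y : ℝ} (h : x ≤ y) (t : ℕ) :
    EK.aS N (oddPrimes ⌊x⌋₊) t ≤ EK.aS N (oddPrimes ⌊y⌋₊) t := by
  unfold EK.aS
  exact Finset.card_le_card (Finset.filter_subset_filter _ (oddPrimes_mono h))

theorem qS_mono (N : ℤ) {x y : ℝ} (h : x ≤ y) (t : ℕ) : qS N x t ≤ qS N y t := by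
  unfold qS
  exact Finset.card_le_card (Finset.filter_subset_filter _ (oddPrimes_mono h))

theorem aS_le_wS (N : ℤ) (x : ℝ) (t : ℕ) : EK.aS N (oddPrimes ⌊x⌋₊) t ≤ EK.wS N x t :=
  (EK.wS_bounds N x x (le_refl x) t).1

theorem wS_le (N : ℤ) (x : ℝ) (t : ℕ) :
    EK.wS N x t ≤ EK.aS N (oddPrimes ⌊x⌋₊) t + qS N x t := by
  unfold EK.wS EK.aS qS
  have hsub : (oddPrimes ⌊x⌋₊).filter (fun p => LC N p t) ⊆
      (oddPrimes ⌊x⌋₊).filter (fun p => ACond N p t) ∪
        (oddPrimes ⌊x⌋₊).filter (fun p : ℕ => (p : ℤ) ^ 4 ∣ (t : ℤ) ^ 2 - 4 * N) := by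
    intro p hp
    rw [mem_filter] at hp
    rw [mem_union, mem_filter, mem_filter]
    rcases hp.2 with h | ⟨j, j1, j2, -⟩
    · exact Or.inl ⟨hp.1, h⟩
    · exact Or.inr ⟨hp.1, (pow_dvd_pow _ (by omega)).trans j2⟩
  exact (card_le_card hsub).trans (Finset.card_union_le _ _)

/-- the point of height `L` -/
noncomputable def pt (L : ℝ) : ℝ := Real.exp (Real.exp L)

theorem pt_mono {L L' : ℝ} (h : L ≤ L') : pt L ≤ pt L' :=
  Real.exp_le_exp.2 (Real.exp_le_exp.2 h)

theorem pt_ge (L : ℝ) (hL : 0 ≤ L) : 2 ≤ pt L := by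
  unfold pt
  have h1 : 1 ≤ Real.exp L := Real.one_le_exp hL
  have h2 := Real.add_one_le_exp (Real.exp L)
  linarith

theorem log_log_pt (L : ℝ) : Real.log (Real.log (pt L)) = L := by
  unfold pt
  rw [Real.log_exp, Real.log_exp]

theorem pt_log_log {x : ℝ} (hx : 1 < x) : pt (Real.log (Real.log x)) = x := by
  unfold pt
  rw [Real.exp_log (Real.log_pos hx), Real.exp_log (by linarith)]

/-- the exceptional set at one point -/
noncomputable def badL (N : ℤ) (δ : ℝ) (T : ℕ) (L : ℝ) : Finset ℕ :=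
  (range T).filter (fun t => δ * L < |(EK.aS N (oddPrimes ⌊pt L⌋₊) t : ℝ) - EK.mu N (pt L)|)

theorem badL_card (N : ℤ) (δ : ℝ) (hδ : 0 < δ) (T : ℕ) (L : ℝ) (hL : 1 ≤ L)
    (hT : pt L ^ 4 ≤ T) : ((badL N δ T L).card : ℝ) ≤ 26 * T / δ ^ 2 * (1 / L) := by
  have h1 := var_bound N (pt L) (pt_ge L (by linarith)) T hT
  have h2 := EK.mu_upper N (pt L) (pt_ge L (by linarith))
  rw [log_log_pt] at h2
  have hT0 : (0 : ℝ) ≤ T := Nat.cast_nonneg T
  have h3 : ((badL N δ T L).card : ℝ) * (δ * L) ^ 2 ≤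
      ∑ t ∈ range T, ((EK.aS N (oddPrimes ⌊pt L⌋₊) t : ℝ) - EK.mu N (pt L)) ^ 2 := by
    calc ((badL N δ T L).card : ℝ) * (δ * L) ^ 2 = ∑ _t ∈ badL N δ T L, (δ * L) ^ 2 := by
          rw [Finset.sum_const, nsmul_eq_mul]
      _ ≤ ∑ t ∈ badL N δ T L, ((EK.aS N (oddPrimes ⌊pt L⌋₊) t : ℝ) - EK.mu N (pt L)) ^ 2 := by
          apply Finset.sum_le_sum
          intro t ht
          have h4 := (Finset.mem_filter.1 ht).2
          rw [← sq_abs ((EK.aS N (oddPrimes ⌊pt L⌋₊) t : ℝ) - EK.mu N (pt L))]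
          exact pow_le_pow_left₀ (by positivity) h4.le 2
      _ ≤ _ := Finset.sum_le_sum_of_subset_of_nonneg (Finset.filter_subset _ _)
          (fun t _ _ => sq_nonneg _)
  have h5 : (T : ℝ) * (3 * EK.mu N (pt L) + 2) ≤ T * (26 * L) :=
    mul_le_mul_of_nonneg_left (by linarith) hT0
  have h6 : 0 < (δ * L) ^ 2 := by positivity
  have h7 : ((badL N δ T L).card : ℝ) ≤ T * (26 * L) / (δ * L) ^ 2 := by
    rw [le_div_iff₀ h6]
    linarith
  refine h7.trans (le_of_eq ?_)
  field_simp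

theorem cS_mono (N : ℤ) {x X : ℝ} (y : ℝ) (h : x ≤ X) (t : ℕ) : EK.cS N x y t ≤ EK.cS N X y t := by
  unfold EK.cS
  apply Nat.add_le_add
  · exact Finset.card_le_card (Finset.filter_subset_filter _ (oddPrimes_mono h))
  · exact Finset.card_le_card (Finset.filter_subset_filter _ (oddPrimes_mono h))

theorem qS_le_cS (N : ℤ) {x X : ℝ} (y : ℝ) (h : x ≤ X) (t : ℕ) : qS N x t ≤ EK.cS N X y t := by
  refine (qS_mono N h t).trans ?_
  unfold qS EK.cS
  exact Nat.le_add_left _ _

/-- the exceptional set of the remaining primes -/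
noncomputable def badC (N : ℤ) (X y b : ℝ) (T : ℕ) : Finset ℕ :=
  (range T).filter (fun t => b < (EK.cS N X y t : ℝ))

theorem badC_card (N : ℤ) (hN : N = 1 ∨ N = -1) (y b : ℝ) (hy : 2 ≤ y) (hb : 0 < b) (T : ℕ)
    (hT : (y ^ 2) ^ 2 ≤ T) : ((badC N (y ^ 2) y b T).card : ℝ) ≤ 17 * T / b := by
  have hyX : y ≤ y ^ 2 := by nlinarith
  have h1 := EK.cS_bound N hN (y ^ 2) y hy hyX T
  have h2 : ((badC N (y ^ 2) y b T).card : ℝ) * b ≤ ∑ t ∈ range T, (EK.cS N (y ^ 2) y t : ℝ) := by
    calc ((badC N (y ^ 2) y b T).card : ℝ) * b = ∑ _t ∈ badC N (y ^ 2) y b T, b := by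
          rw [Finset.sum_const, nsmul_eq_mul]
      _ ≤ ∑ t ∈ badC N (y ^ 2) y b T, (EK.cS N (y ^ 2) y t : ℝ) :=
          Finset.sum_le_sum (fun t ht => (Finset.mem_filter.1 ht).2.le)
      _ ≤ _ := Finset.sum_le_sum_of_subset_of_nonneg (Finset.filter_subset _ _)
          (fun t _ _ => Nat.cast_nonneg _)
  have h3 : 2 * y ^ 2 ≤ T := by
    refine le_trans ?_ hT
    nlinarith
  have hly : 0 < Real.log y := Real.log_pos (by linarith)
  have h4 : Real.log (Real.log (y ^ 2)) - Real.log (Real.log y) ≤ 1 := by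
    rw [Real.log_pow]
    push_cast
    rw [Real.log_mul (by norm_num) hly.ne']
    have : Real.log 2 ≤ 1 := by
      have := Real.log_le_sub_one_of_pos (show (0 : ℝ) < 2 by norm_num)
      linarith
    linarith
  have hT0 : (0 : ℝ) ≤ T := Nat.cast_nonneg T
  have h5 : (T : ℝ) * (Real.log (Real.log (y ^ 2)) - Real.log (Real.log y) + 14) ≤ T * 15 :=
    mul_le_mul_of_nonneg_left (by linarith) hT0
  rw [le_div_iff₀ hb]
  linarith

theorem pt_sq_le (L : ℝ) : pt L ^ 2 ≤ pt (L + 1) := by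
  unfold pt
  rw [← Real.exp_nat_mul]
  apply Real.exp_le_exp.2
  rw [Real.exp_add]
  have h1 := Real.exp_pos L
  have h2 : (2 : ℝ) ≤ Real.exp 1 := by
    have := Real.add_one_le_exp (1 : ℝ)
    linarith
  push_cast
  nlinarith

/-- all scales, at the level of traces -/
theorem trace_scales (ε η : ℝ) (hε : 0 < ε) (hε1 : ε ≤ 1) (hη : 0 < η) : ∃ L1 : ℝ, 1 ≤ L1 ∧
    ∀ N : ℤ, (N = 1 ∨ N = -1) → ∀ (X : ℝ) (T : ℕ), X ^ 2 ≤ T →
    (((range T).filter (fun t => ∃ x : ℝ, pt L1 ≤ x ∧ x ≤ X ∧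
      ε * Real.log (Real.log x) < |(EK.wS N x t : ℝ) - Real.log (Real.log x)|)).card : ℝ) ≤
      η * T := by
  obtain ⟨δ, hδdef⟩ : ∃ δ : ℝ, δ = ε / 8 := ⟨_, rfl⟩
  have hδ : 0 < δ := by rw [hδdef]; positivity
  have hδ1 : δ ≤ 1 / 8 := by rw [hδdef]; linarith
  obtain ⟨L0, hL0def⟩ : ∃ L0 : ℝ, L0 = 1 + 7 / δ + 95 / (δ ^ 3 * η) := ⟨_, rfl⟩
  have hL01 : 1 ≤ L0 := by
    rw [hL0def]
    have : 0 ≤ 7 / δ + 95 / (δ ^ 3 * η) := by positivity
    linarith
  have hL0δ : 7 ≤ δ * L0 := by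
    have h1 : 7 / δ ≤ L0 := by
      rw [hL0def]
      have : 0 ≤ 95 / (δ ^ 3 * η) := by positivity
      linarith
    rw [div_le_iff₀ hδ] at h1
    linarith
  have hL0η : 95 / (δ ^ 3 * L0) ≤ η := by
    have h1 : 95 / (δ ^ 3 * η) ≤ L0 := by
      rw [hL0def]
      have : 0 ≤ 7 / δ := by positivity
      linarith
    rw [div_le_iff₀ (by positivity)] at h1 ⊢
    linarith
  refine ⟨L0 + 1, by linarith, ?_⟩
  intro N hN X T hXT
  have hT0 : (0 : ℝ) ≤ T := Nat.cast_nonneg T
  rcases lt_or_ge X (pt (L0 + 1)) with hX | hX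
  · -- nothing to prove
    have : (range T).filter (fun t => ∃ x : ℝ, pt (L0 + 1) ≤ x ∧ x ≤ X ∧
      ε * Real.log (Real.log x) < |(EK.wS N x t : ℝ) - Real.log (Real.log x)|) = ∅ := by
      apply Finset.filter_eq_empty_iff.2
      rintro t - ⟨x, h1, h2, -⟩
      linarith
    rw [this, Finset.card_empty, Nat.cast_zero]
    positivity
  · have hp0 := pt_ge L0 (by linarith)
    obtain ⟨y, hydef⟩ : ∃ y : ℝ, y = Real.sqrt X := ⟨_, rfl⟩
    have hX0 : 0 ≤ X := by
      have := pt_ge (L0 + 1) (by linarith)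
      linarith
    have hyX : y ^ 2 = X := by rw [hydef]; exact Real.sq_sqrt hX0
    have hy : pt L0 ≤ y := by
      rw [hydef]
      apply Real.le_sqrt_of_sq_le
      exact (pt_sq_le L0).trans hX
    have hy2 : 2 ≤ y := hp0.trans hy
    obtain ⟨Lt, hLt⟩ : ∃ Lt : ℝ, Lt = Real.log (Real.log y) := ⟨_, rfl⟩
    have hptLt : pt Lt = y := by rw [hLt]; exact pt_log_log (by linarith)
    have hL0t : L0 ≤ Lt := by
      rw [hLt, ← log_log_pt L0]
      apply Real.log_le_log
      · exact Real.log_pos (by linarith)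
      · exact Real.log_le_log (by linarith) hy
    obtain ⟨G, hG1, hG2, hG3⟩ := grid_exists δ L0 Lt hδ (by linarith) (by linarith) hL0t
    have hLtG : Lt ∈ G := by
      obtain ⟨g, -, g', hg', -, h2, -, -⟩ := hG3 Lt hL0t (le_refl _)
      have : g' = Lt := le_antisymm (hG1 g' hg').2 h2
      rw [← this]; exact hg'
    have hsub : (range T).filter (fun t => ∃ x : ℝ, pt (L0 + 1) ≤ x ∧ x ≤ X ∧
        ε * Real.log (Real.log x) < |(EK.wS N x t : ℝ) - Real.log (Real.log x)|) ⊆
        G.biUnion (fun g => badL N δ T g) ∪ badC N (y ^ 2) y (δ * L0) T := by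
      intro t ht
      obtain ⟨htT, x, hx1', hx2, hx3⟩ := Finset.mem_filter.1 ht
      by_contra hcon
      rw [Finset.mem_union, not_or] at hcon
      obtain ⟨hc1, hc2⟩ := hcon
      have hc2' : (EK.cS N X y t : ℝ) ≤ δ * L0 := by
        by_contra h
        rw [← hyX] at h
        exact hc2 (Finset.mem_filter.2 ⟨htT, not_le.1 h⟩)
      have hc1' : ∀ g ∈ G, |(EK.aS N (oddPrimes ⌊pt g⌋₊) t : ℝ) - EK.mu N (pt g)| ≤ δ * g := by
        intro g hg
        by_contra h
        exact hc1 (Finset.mem_biUnion.2 ⟨g, hg, Finset.mem_filter.2 ⟨htT, not_le.1 h⟩⟩)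
      have hx1 : pt L0 ≤ x := (pt_mono (by linarith)).trans hx1'
      have hx0 : 1 < x := by linarith
      obtain ⟨L, hLdef⟩ : ∃ L : ℝ, L = Real.log (Real.log x) := ⟨_, rfl⟩
      have hptL : pt L = x := by rw [hLdef]; exact pt_log_log hx0
      have hLL0 : L0 ≤ L := by
        rw [hLdef, ← log_log_pt L0]
        apply Real.log_le_log
        · exact Real.log_pos (by linarith)
        · exact Real.log_le_log (by linarith) hx1
      have hδL : 7 ≤ δ * L := hL0δ.trans (mul_le_mul_of_nonneg_left hLL0 hδ.le)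
      have hδL0 : δ * L0 ≤ δ * L := mul_le_mul_of_nonneg_left hLL0 hδ.le
      have hL0pos : 0 ≤ L := by linarith
      rw [← hLdef] at hx3
      have e8 : ε = 8 * δ := by rw [hδdef]; ring
      have c3 : 8 * δ * L = 8 * (δ * L) := by ring
      rcases le_or_gt x y with hxy | hxy
      · have hLLt : L ≤ Lt := by
          rw [hLdef, hLt]
          apply Real.log_le_log
          · exact Real.log_pos hx0
          · exact Real.log_le_log (by linarith) hxy
        obtain ⟨g, hg, g', hg', hgL, hLg', hLg, hg'L⟩ := hG3 L hLL0 hLLt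
        have hgL0 := (hG1 g hg).1
        have hg'L0 := (hG1 g' hg').1
        -- lower bound
        have l1 : (EK.aS N (oddPrimes ⌊pt g⌋₊) t : ℝ) ≤ (EK.wS N x t : ℝ) := by
          have a1 := aS_mono N (pt_mono hgL) t
          rw [hptL] at a1
          exact_mod_cast a1.trans (aS_le_wS N x t)
        have l2 := (abs_le.1 (hc1' g hg)).1
        have l3 := EK.mu_lower' N (pt g) (pt_ge g (by linarith))
        rw [log_log_pt] at l3
        -- upper bound
        have u1 : (EK.wS N x t : ℝ) ≤ (EK.aS N (oddPrimes ⌊pt g'⌋₊) t : ℝ) + δ * L0 := by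
          have a1 := wS_le N x t
          have a2 := aS_mono N (pt_mono hLg') t
          rw [hptL] at a2
          have a3 := qS_le_cS N y hx2 t
          have a4 : (EK.wS N x t : ℝ) ≤ (EK.aS N (oddPrimes ⌊pt g'⌋₊) t : ℝ) +
              (EK.cS N X y t : ℝ) := by
            exact_mod_cast a1.trans (Nat.add_le_add a2 a3)
          linarith
        have u2 := (abs_le.1 (hc1' g' hg')).2
        have u3 := EK.mu_upper N (pt g') (pt_ge g' (by linarith))
        rw [log_log_pt] at u3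
        -- `g ≥ (1 - δ) L`
        have hg2 : (1 - δ) * L ≤ g := by
          have : (1 - δ) * L ≤ (1 - δ) * ((1 + δ) * g) :=
            mul_le_mul_of_nonneg_left hLg (by linarith)
          have e : (1 - δ) * ((1 + δ) * g) = g - δ ^ 2 * g := by ring
          have : 0 ≤ δ ^ 2 * g := mul_nonneg (by positivity) (by linarith)
          linarith
        have low : (1 - 3 * δ) * L ≤ (EK.wS N x t : ℝ) := by
          have b1 : (1 - δ) * ((1 - δ) * L) ≤ (1 - δ) * g :=
            mul_le_mul_of_nonneg_left hg2 (by linarith)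
          have b2 : (1 - δ) * ((1 - δ) * L) = L - 2 * (δ * L) + δ ^ 2 * L := by ring
          have b3 : 0 ≤ δ ^ 2 * L := by positivity
          have b4 : (1 - 3 * δ) * L = L - 3 * (δ * L) := by ring
          have b5 : (1 - δ) * g = g - δ * g := by ring
          linarith
        have up : (EK.wS N x t : ℝ) ≤ (1 + 5 * δ) * L := by
          have b1 : (1 + δ) * g' ≤ (1 + δ) * ((1 + δ) * L) :=
            mul_le_mul_of_nonneg_left hg'L (by linarith)
          have b2 : (1 + δ) * ((1 + δ) * L) = L + 2 * (δ * L) + δ * (δ * L) := by ring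
          have b3 : δ * (δ * L) ≤ 1 * (δ * L) :=
            mul_le_mul_of_nonneg_right (by linarith) (by linarith)
          have b4 : (1 + 5 * δ) * L = L + 5 * (δ * L) := by ring
          have b5 : (1 + δ) * g' = g' + δ * g' := by ring
          linarith
        have hfin : |(EK.wS N x t : ℝ) - L| ≤ ε * L := by
          rw [abs_le, e8, c3]
          have c1 : (1 - 3 * δ) * L = L - 3 * (δ * L) := by ring
          have c2 : (1 + 5 * δ) * L = L + 5 * (δ * L) := by ring
          constructor <;> linarith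
        linarith
      · -- the last stretch
        have hLtL : Lt ≤ L := by
          rw [hLdef, hLt]
          apply Real.log_le_log
          · exact Real.log_pos (by linarith)
          · exact Real.log_le_log (by linarith) hxy.le
        have hLLt1 : L ≤ Lt + 1 := by
          have hly : 0 < Real.log y := Real.log_pos (by linarith)
          have h1 : Real.log x ≤ 2 * Real.log y := by
            have h2 : Real.log x ≤ Real.log (y ^ 2) := by
              apply Real.log_le_log (by linarith)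
              rw [hyX]; exact hx2
            rw [Real.log_pow] at h2
            push_cast at h2
            exact h2
          have h3 : L ≤ Real.log (2 * Real.log y) := by
            rw [hLdef]
            exact Real.log_le_log (Real.log_pos hx0) h1
          rw [Real.log_mul (by norm_num) hly.ne', ← hLt] at h3
          have := Real.log_le_sub_one_of_pos (show (0 : ℝ) < 2 by norm_num)
          linarith
        have l2 := (abs_le.1 (hc1' Lt hLtG)).1
        have u2 := (abs_le.1 (hc1' Lt hLtG)).2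
        have l3 := EK.mu_lower' N (pt Lt) (pt_ge Lt (by linarith))
        have u3 := EK.mu_upper N (pt Lt) (pt_ge Lt (by linarith))
        rw [log_log_pt] at l3 u3
        have l1 : (EK.aS N (oddPrimes ⌊pt Lt⌋₊) t : ℝ) ≤ (EK.wS N x t : ℝ) := by
          have a1 := aS_mono N (pt_mono hLtL) t
          rw [hptL] at a1
          exact_mod_cast a1.trans (aS_le_wS N x t)
        have u1 : (EK.wS N x t : ℝ) ≤ (EK.aS N (oddPrimes ⌊pt Lt⌋₊) t : ℝ) + δ * L0 := by
          have a1 := (EK.wS_bounds N x y hxy.le t).2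
          have a2 := cS_mono N y hx2 t
          rw [hptLt]
          have a4 : (EK.wS N x t : ℝ) ≤ (EK.aS N (oddPrimes ⌊y⌋₊) t : ℝ) +
              (EK.cS N X y t : ℝ) := by
            exact_mod_cast a1.trans (Nat.add_le_add_left a2 _)
          linarith
        have hδLt : δ * Lt ≤ δ * L := mul_le_mul_of_nonneg_left hLtL hδ.le
        have hfin : |(EK.wS N x t : ℝ) - L| ≤ ε * L := by
          rw [abs_le, e8, c3]
          constructor <;> linarith
        linarith
    have hc : (((range T).filter (fun t => ∃ x : ℝ, pt (L0 + 1) ≤ x ∧ x ≤ X ∧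
        ε * Real.log (Real.log x) < |(EK.wS N x t : ℝ) - Real.log (Real.log x)|)).card : ℝ) ≤
        ∑ g ∈ G, ((badL N δ T g).card : ℝ) + ((badC N (y ^ 2) y (δ * L0) T).card : ℝ) := by
      have h1 := (Finset.card_le_card hsub).trans (Finset.card_union_le _ _)
      have h2 : (G.biUnion (fun g => badL N δ T g)).card ≤ ∑ g ∈ G, (badL N δ T g).card :=
        Finset.card_biUnion_le
      exact_mod_cast h1.trans (Nat.add_le_add_right h2 _)
    refine hc.trans ?_
    have hyT : (y ^ 2) ^ 2 ≤ T := by rw [hyX]; exact hXT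
    have h1 : ∑ g ∈ G, ((badL N δ T g).card : ℝ) ≤ 26 * T / δ ^ 2 * (3 / (δ * L0)) := by
      calc ∑ g ∈ G, ((badL N δ T g).card : ℝ) ≤ ∑ g ∈ G, 26 * T / δ ^ 2 * (1 / g) := by
            apply Finset.sum_le_sum
            intro g hg
            have hg1 := (hG1 g hg).1
            have hg2 := (hG1 g hg).2
            apply badL_card N δ hδ T g (by linarith)
            refine le_trans ?_ hyT
            rw [← hptLt, ← pow_mul]
            exact pow_le_pow_left₀ (by linarith [pt_ge g (by linarith)]) (pt_mono hg2) 4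
        _ = 26 * T / δ ^ 2 * ∑ g ∈ G, 1 / g := by rw [Finset.mul_sum]
        _ ≤ _ := mul_le_mul_of_nonneg_left hG2 (by positivity)
    have h2 := badC_card N hN y (δ * L0) hy2 (by positivity) T hyT
    have h3 : 17 * (T : ℝ) / (δ * L0) ≤ 17 * T / (δ ^ 3 * L0) := by
      apply div_le_div_of_nonneg_left (by positivity) (by positivity)
      apply mul_le_mul_of_nonneg_right _ (by linarith)
      calc δ ^ 3 = δ * (δ * δ) := by ring
        _ ≤ δ * 1 := mul_le_mul_of_nonneg_left (by nlinarith) hδ.le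
        _ = δ := mul_one δ
    have h4 : 26 * (T : ℝ) / δ ^ 2 * (3 / (δ * L0)) = 78 * T / (δ ^ 3 * L0) := by
      field_simp
      ring
    have h5 : 78 * (T : ℝ) / (δ ^ 3 * L0) + 17 * T / (δ ^ 3 * L0) = 95 / (δ ^ 3 * L0) * T := by
      ring
    have h6 : 95 / (δ ^ 3 * L0) * T ≤ η * T := mul_le_mul_of_nonneg_right hL0η hT0
    linarith

end Pool.Agent.Lib.MP_d470cf_nt.NP
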