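import Pool.Agent.Lib.MP_d470cf_nt.NP.Scales
import Pool.Agent.Lib.MP_d470cf_nt.NP.Fin

set_option autoImplicit false

open NumberField Module NumberField.Units Finset Classical Filter Topology

namespace Pool.Agent.Lib.MP_d470cf_nt.NP

open Pool.Agent.Lib.MP_d470cf_nt Pool.Agent.Lib.MP_d470cf_nt.Loc

/-- counting fields by counting traces, upper bound for a general property -/
theorem card_filter_le (Y : ℝ) (Q : ℤ → ℕ → Prop) :
    ((EK.FF Y).filter (fun K => Q (nm K) (tr K).toNat)).card ≤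
      ((range (EK.TT Y)).filter (fun t => Q 1 t)).card +
      ((range (EK.TT Y)).filter (fun t => Q (-1) t)).card := by
  have h := EK.sum_split Y (fun N t => if Q N t then (1 : ℂ) else 0)
  rw [Finset.sum_boole, Finset.sum_boole, Finset.sum_boole, Finset.filter_filter,
    Finset.filter_filter] at h
  have h' : ((EK.FF Y).filter (fun K => Q (nm K) (tr K).toNat)).card =
      ((range (EK.TT Y)).filter (fun t => t ∈ SN 1 Y ∧ Q 1 t)).card +
      ((range (EK.TT Y)).filter (fun t => t ∈ SN (-1) Y ∧ Q (-1) t)).card := by exact_mod_cast h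
  rw [h']
  apply Nat.add_le_add
  · apply Finset.card_le_card
    intro t ht
    obtain ⟨a, -, b⟩ := Finset.mem_filter.1 ht
    exact Finset.mem_filter.2 ⟨a, b⟩
  · apply Finset.card_le_card
    intro t ht
    obtain ⟨a, -, b⟩ := Finset.mem_filter.1 ht
    exact Finset.mem_filter.2 ⟨a, b⟩

theorem scales_main (ε : ℝ) (hε : 0 < ε) (ψ : ℝ → ℝ) (hψ : Tendsto ψ atTop atTop) :
    Tendsto (fun Y : ℝ =>
      (((EK.FF Y).filter (fun K => ∀ x : ℝ, ψ Y ≤ x → x ≤ Real.exp (Y / 2) →
        |(EK.wS (nm K) x (tr K).toNat : ℝ) - Real.log (Real.log x)| ≤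
          ε * Real.log (Real.log x))).card : ℝ) / ((EK.FF Y).card : ℝ)) atTop (𝓝 1) := by
  rw [Metric.tendsto_nhds]
  intro η hη
  obtain ⟨L0, hL01, hL0⟩ := trace_scales (min ε 1) (η / 32) (by positivity) (min_le_right _ _)
    (by positivity)
  filter_upwards [eventually_ge_atTop (1 : ℝ), FF_card_ge, hψ.eventually_ge_atTop (pt L0)]
    with Y hY hF hψY
  have hEY := Real.exp_pos Y
  have hFpos : 0 < ((EK.FF Y).card : ℝ) := lt_of_lt_of_le (by positivity) hF
  have hTge := EK.exp_le_TT Y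
  have hTle : (EK.TT Y : ℝ) ≤ 2 * Real.exp Y := by
    have h1 : (EK.TT Y : ℝ) ≤ Real.exp Y + 2 := by
      unfold EK.TT
      push_cast
      linarith [Nat.floor_le hEY.le]
    have h2 : 2 ≤ Real.exp Y := by
      have := Real.add_one_le_exp Y
      linarith
    linarith
  have hX4 : Real.exp (Y / 2) ^ 2 ≤ (EK.TT Y : ℝ) := by
    rw [← Real.exp_nat_mul]
    refine le_trans (le_of_eq ?_) hTge
    congr 1
    push_cast
    ring
  -- the complement
  obtain ⟨A, hA⟩ : ∃ A : Finset RealQuadraticField, A = (EK.FF Y).filter (fun K => ∀ x : ℝ,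
      ψ Y ≤ x → x ≤ Real.exp (Y / 2) →
        |(EK.wS (nm K) x (tr K).toNat : ℝ) - Real.log (Real.log x)| ≤
          ε * Real.log (Real.log x)) := ⟨_, rfl⟩
  obtain ⟨Bd, hB⟩ : ∃ Bd : Finset RealQuadraticField, Bd = (EK.FF Y).filter (fun K =>
      ∃ x : ℝ, pt L0 ≤ x ∧ x ≤ Real.exp (Y / 2) ∧ min ε 1 * Real.log (Real.log x) <
        |(EK.wS (nm K) x (tr K).toNat : ℝ) - Real.log (Real.log x)|) := ⟨_, rfl⟩
  rw [← hA]
  have hcover : EK.FF Y ⊆ A ∪ Bd := by
    intro K hK
    rw [Finset.mem_union, hA, hB, Finset.mem_filter, Finset.mem_filter]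
    by_cases h : ∀ x : ℝ, ψ Y ≤ x → x ≤ Real.exp (Y / 2) →
        |(EK.wS (nm K) x (tr K).toNat : ℝ) - Real.log (Real.log x)| ≤ ε * Real.log (Real.log x)
    · exact Or.inl ⟨hK, h⟩
    · right
      push Not at h
      obtain ⟨x, h1, h2, h3⟩ := h
      refine ⟨hK, x, hψY.trans h1, h2, lt_of_le_of_lt ?_ h3⟩
      apply mul_le_mul_of_nonneg_right (min_le_left _ _)
      have hx : pt L0 ≤ x := hψY.trans h1
      have h4 : L0 ≤ Real.log (Real.log x) := by
        rw [← log_log_pt L0]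
        have hp := pt_ge L0 (by linarith)
        apply Real.log_le_log
        · exact Real.log_pos (by linarith)
        · exact Real.log_le_log (by linarith) hx
      linarith
  have hBle : (Bd.card : ℝ) ≤ η / 8 * Real.exp Y := by
    have h1 := card_filter_le Y (fun N t => ∃ x : ℝ, pt L0 ≤ x ∧ x ≤ Real.exp (Y / 2) ∧
      min ε 1 * Real.log (Real.log x) < |(EK.wS N x t : ℝ) - Real.log (Real.log x)|)
    rw [hB]
    have h2 := hL0 1 (Or.inl rfl) (Real.exp (Y / 2)) (EK.TT Y) hX4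
    have h3 := hL0 (-1) (Or.inr rfl) (Real.exp (Y / 2)) (EK.TT Y) hX4
    have h4 : (((EK.FF Y).filter (fun K =>
      ∃ x : ℝ, pt L0 ≤ x ∧ x ≤ Real.exp (Y / 2) ∧ min ε 1 * Real.log (Real.log x) <
        |(EK.wS (nm K) x (tr K).toNat : ℝ) - Real.log (Real.log x)|)).card : ℝ) ≤
        η / 32 * EK.TT Y + η / 32 * EK.TT Y := by
      refine le_trans ?_ (add_le_add h2 h3)
      exact_mod_cast h1
    have h5 : η / 32 * (EK.TT Y : ℝ) ≤ η / 32 * (2 * Real.exp Y) :=
      mul_le_mul_of_nonneg_left hTle (by positivity)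
    linarith
  have hAB : ((EK.FF Y).card : ℝ) ≤ (A.card : ℝ) + (Bd.card : ℝ) := by
    exact_mod_cast (Finset.card_le_card hcover).trans (Finset.card_union_le _ _)
  have hAle : (A.card : ℝ) ≤ ((EK.FF Y).card : ℝ) := by
    rw [hA]
    exact_mod_cast Finset.card_filter_le _ _
  rw [Real.dist_eq, abs_sub_comm, abs_of_nonneg]
  · have h1 : 1 - (A.card : ℝ) / ((EK.FF Y).card : ℝ) =
        (((EK.FF Y).card : ℝ) - A.card) / ((EK.FF Y).card : ℝ) := by
      rw [sub_div, div_self hFpos.ne']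
    rw [h1, div_lt_iff₀ hFpos]
    have h2 : η * (Real.exp Y / 4) ≤ η * ((EK.FF Y).card : ℝ) := mul_le_mul_of_nonneg_left hF hη.le
    have h3 : 0 < η * Real.exp Y := by positivity
    have h4 : η / 8 * Real.exp Y = η * Real.exp Y / 8 := by ring
    have h5 : η * (Real.exp Y / 4) = η * Real.exp Y / 4 := by ring
    linarith
  · rw [sub_nonneg, div_le_one hFpos]
    exact hAle

end Pool.Agent.Lib.MP_d470cf_nt.NP
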