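import Pool.Agent.Lib.MP_d470cf_nt.NP.Pat
import Pool.Agent.Lib.MP_d470cf_nt.NP.Loc
import Pool.Agent.Lib.MP_d470cf_nt.NP.Esym

set_option autoImplicit false

open Finset Classical

namespace Pool.Agent.Lib.MP_d470cf_nt.NP

open Pool.Agent.Lib.MP_d470cf_nt Pool.Agent.Lib.MP_d470cf_nt.Loc
open Pool.Agent.CH.S (OP)

theorem mem_OP {x p : ℕ} : p ∈ OP x ↔ p.Prime ∧ 2 < p ∧ p ≤ x := by
  unfold OP
  rw [Finset.mem_filter, Finset.mem_range]
  constructor
  · rintro ⟨h1, h2, h3⟩; exact ⟨h2, h3, by omega⟩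
  · rintro ⟨h1, h2, h3⟩; exact ⟨by omega, h1, h2⟩

theorem card_OP (x : ℕ) : (OP x).card ≤ x := by
  have h : OP x ⊆ Finset.Icc 1 x := by
    intro p hp
    obtain ⟨h1, h2, h3⟩ := mem_OP.1 hp
    exact Finset.mem_Icc.2 ⟨by omega, h3⟩
  have := Finset.card_le_card h
  rwa [Nat.card_Icc, Nat.add_sub_cancel] at this

theorem dl_third {p : ℕ} (N : ℤ) (hp : p.Prime) (h3 : 2 < p) : EK.dl N p ≤ 1 / 3 := by
  refine (EK.dl_le N p hp).trans ?_
  have : (3 : ℝ) ≤ p := by exact_mod_cast h3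
  exact one_div_le_one_div_of_le (by norm_num) this

theorem Dg_dl (N : ℤ) : Pool.Agent.PSq.Dg (EK.dl N) := by
  intro p hp h3
  refine ⟨EK.dl_nonneg N p, (EK.dl_le N p hp).trans ?_⟩
  have : (0 : ℝ) < p := by exact_mod_cast hp.pos
  exact div_le_div_of_nonneg_right (by norm_num) this.le

theorem ACond_per (N : ℤ) (p : ℕ) (hp : p.Prime) (t : ℕ) :
    ACond N p (t + p ^ 2) ↔ ACond N p t := by
  have := ACond_periodic N p hp t
  simp only [this]

theorem ACond_sum2 (N : ℤ) (p : ℕ) (hp : p.Prime) :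
    ∑ t ∈ range (p ^ 2), ind (ACond N p t) = EK.dl N p * (p : ℝ) ^ 2 := by
  rw [EK.sum_ACond N p hp]
  unfold EK.dl
  have : (p : ℝ) ≠ 0 := by exact_mod_cast hp.ne_zero
  field_simp

theorem ACond_per4 (N : ℤ) (p : ℕ) (hp : p.Prime) (t : ℕ) :
    ACond N p (t + p ^ 4) ↔ ACond N p t := by
  have h := (ACond_periodic N p hp).nat_mul (p ^ 2) t
  rw [Nat.cast_id] at h
  have e : p ^ 4 = p ^ 2 * p ^ 2 := by ring
  rw [e]
  simp only [h]

theorem ACond_sum4 (N : ℤ) (p : ℕ) (hp : p.Prime) :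
    ∑ t ∈ range (p ^ 4), ind (ACond N p t) = EK.dl N p * (p : ℝ) ^ 4 := by
  have hper : Function.Periodic (fun t => ind (ACond N p t)) (p ^ 2) := by
    intro t
    have := ACond_periodic N p hp t
    simp only [this]
  have e : p ^ 4 = p ^ 2 * p ^ 2 := by ring
  rw [e, sum_mul_range _ (p ^ 2) hper (p ^ 2), ACond_sum2 N p hp]
  push_cast
  ring

/-- size of the error term for a set of primes -/
theorem prod_p_le {z : ℕ} {S : Finset ℕ} (hS : S ⊆ OP z) : ∏ p ∈ S, (p : ℝ) ≤ (z : ℝ) ^ S.card := by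
  calc ∏ p ∈ S, (p : ℝ) ≤ ∏ _p ∈ S, (z : ℝ) :=
        Finset.prod_le_prod (fun p _ => Nat.cast_nonneg p)
          (fun p hp => by exact_mod_cast (mem_OP.1 (hS hp)).2.2)
    _ = _ := by rw [Finset.prod_const]

theorem err_sum (z j : ℕ) :
    ∑ S ∈ (OP z).powersetCard j, (∏ p ∈ S, (p : ℝ)) ^ 4 ≤ (z : ℝ) ^ (5 * j) := by
  have h : ∀ S ∈ (OP z).powersetCard j, (∏ p ∈ S, (p : ℝ)) ^ 4 ≤ (z : ℝ) ^ (4 * j) := by
    intro S hS
    obtain ⟨h1, h2⟩ := Finset.mem_powersetCard.1 hS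
    have h3 := prod_p_le h1
    rw [h2] at h3
    calc (∏ p ∈ S, (p : ℝ)) ^ 4 ≤ ((z : ℝ) ^ j) ^ 4 :=
          pow_le_pow_left₀ (Finset.prod_nonneg (fun p _ => Nat.cast_nonneg p)) h3 4
      _ = _ := by rw [← pow_mul, mul_comm]
  refine (Finset.sum_le_sum h).trans ?_
  rw [Finset.sum_const, Finset.card_powersetCard, nsmul_eq_mul]
  have h4 : ((OP z).card.choose j : ℝ) ≤ (z : ℝ) ^ j := by
    calc ((OP z).card.choose j : ℝ) ≤ ((OP z).card ^ j : ℕ) := by
          exact_mod_cast Nat.choose_le_pow _ _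
      _ ≤ (z : ℝ) ^ j := by
          push_cast
          exact pow_le_pow_left₀ (Nat.cast_nonneg _) (by exact_mod_cast card_OP z) j
  calc ((OP z).card.choose j : ℝ) * (z : ℝ) ^ (4 * j) ≤ (z : ℝ) ^ j * (z : ℝ) ^ (4 * j) :=
        mul_le_mul_of_nonneg_right h4 (by positivity)
    _ = _ := by rw [← pow_add]; congr 1; ring

/-- upper bound at the level of traces -/
theorem trace_upper : ∃ C1 : ℝ, 0 < C1 ∧ ∀ n : ℕ, 2 ≤ n → ∀ N : ℤ, ∀ m T : ℕ,
    (((range T).filter (fun t => EK.aS N (OP (2 ^ 2 ^ n)) t ≤ m)).card : ℝ) ≤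
      (1 + 1 / 1000) * (T * ((∏ p ∈ OP (2 ^ 2 ^ n), (1 - EK.dl N p)) *
        ∑ j ∈ range (m + 1), (2 * ∑ p ∈ OP (2 ^ 2 ^ n), EK.dl N p) ^ j)) +
      C1 * (((m : ℝ) + 1) * ((2 : ℝ) ^ 2 ^ n) ^ (250 + 5 * m)) := by
  obtain ⟨C1, hC1, hs⟩ := sift_S
  refine ⟨C1, hC1, ?_⟩
  intro n hn N m T
  set P := OP (2 ^ 2 ^ n) with hP
  have hPp : ∀ p ∈ P, p.Prime ∧ 2 < p := fun p hp => ⟨(mem_OP.1 hp).1, (mem_OP.1 hp).2.1⟩
  have hsub : (range T).filter (fun t => EK.aS N P t ≤ m) ⊆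
      (range (m + 1)).biUnion (fun j => (P.powersetCard j).biUnion
        (fun S => (range T).filter (fun t => Pt (ACond N) P S t))) := by
    intro t ht
    obtain ⟨h1, h2⟩ := Finset.mem_filter.1 ht
    rw [Finset.mem_biUnion]
    refine ⟨EK.aS N P t, Finset.mem_range.2 (by omega), ?_⟩
    rw [Finset.mem_biUnion]
    refine ⟨P.filter (fun p => ACond N p t), Finset.mem_powersetCard.2
      ⟨Finset.filter_subset _ _, rfl⟩, ?_⟩
    refine Finset.mem_filter.2 ⟨h1, ?_, ?_⟩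
    · intro p hp
      exact (Finset.mem_filter.1 hp).2
    · intro p hp hA
      exact (Finset.mem_sdiff.1 hp).2 (Finset.mem_filter.2 ⟨(Finset.mem_sdiff.1 hp).1, hA⟩)
  have hc1 : (((range T).filter (fun t => EK.aS N P t ≤ m)).card : ℝ) ≤
      ∑ j ∈ range (m + 1), ∑ S ∈ P.powersetCard j,
        (((range T).filter (fun t => Pt (ACond N) P S t)).card : ℝ) := by
    have h1 := (Finset.card_le_card hsub).trans Finset.card_biUnion_le
    have h2 : ∑ j ∈ range (m + 1), ((P.powersetCard j).biUnion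
        (fun S => (range T).filter (fun t => Pt (ACond N) P S t))).card ≤
        ∑ j ∈ range (m + 1), ∑ S ∈ P.powersetCard j,
        ((range T).filter (fun t => Pt (ACond N) P S t)).card :=
      Finset.sum_le_sum (fun j _ => Finset.card_biUnion_le)
    exact_mod_cast h1.trans h2
  refine hc1.trans ?_
  have hmain : ∀ j ∈ range (m + 1), ∑ S ∈ P.powersetCard j,
        (((range T).filter (fun t => Pt (ACond N) P S t)).card : ℝ) ≤
      (1 + 1 / 1000) * (T * ((∏ p ∈ P, (1 - EK.dl N p)) * (2 * ∑ p ∈ P, EK.dl N p) ^ j)) +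
        C1 * ((2 : ℝ) ^ 2 ^ n) ^ (250 + 5 * m) := by
    intro j hj
    have hjm : j ≤ m := by have := Finset.mem_range.1 hj; omega
    have h1 : ∀ S ∈ P.powersetCard j,
        (((range T).filter (fun t => Pt (ACond N) P S t)).card : ℝ) ≤
        (1 + 1 / 1000) * (T * ((∏ p ∈ P, (1 - EK.dl N p)) * ∏ p ∈ S, (2 * EK.dl N p))) +
          C1 * ((∏ p ∈ S, (p : ℝ)) ^ 4 * ((2 : ℝ) ^ 2 ^ n) ^ 250) := by
      intro S hS
      obtain ⟨hS1, hS2⟩ := Finset.mem_powersetCard.1 hS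
      have h2 := (hs n hn (ACond N) (EK.dl N) 2 (by norm_num) (Dg_dl N)
        (fun p hp _ => ACond_per N p hp) (fun p hp _ => ACond_sum2 N p hp) S hS1 T).2
      have h3 : (∏ p ∈ S, EK.dl N p) * ∏ p ∈ P \ S, (1 - EK.dl N p) ≤
          (∏ p ∈ P, (1 - EK.dl N p)) * ∏ p ∈ S, (2 * EK.dl N p) := by
        rw [← Finset.prod_sdiff hS1 (f := fun p => 1 - EK.dl N p)]
        have h4 : ∏ p ∈ S, EK.dl N p ≤
            (∏ p ∈ S, (1 - EK.dl N p)) * ∏ p ∈ S, (2 * EK.dl N p) := by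
          rw [← Finset.prod_mul_distrib]
          apply Finset.prod_le_prod (fun p _ => EK.dl_nonneg N p)
          intro p hp
          have h5 := dl_third N (hPp p (hS1 hp)).1 (hPp p (hS1 hp)).2
          have h6 := EK.dl_nonneg N p
          nlinarith
        have h7 : 0 ≤ ∏ p ∈ P \ S, (1 - EK.dl N p) := by
          apply Finset.prod_nonneg
          intro p hp
          have hpP := (Finset.mem_sdiff.1 hp).1
          have := dl_third N (hPp p hpP).1 (hPp p hpP).2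
          linarith
        calc (∏ p ∈ S, EK.dl N p) * ∏ p ∈ P \ S, (1 - EK.dl N p)
            ≤ ((∏ p ∈ S, (1 - EK.dl N p)) * ∏ p ∈ S, (2 * EK.dl N p)) *
              ∏ p ∈ P \ S, (1 - EK.dl N p) := mul_le_mul_of_nonneg_right h4 h7
          _ = _ := by ring
      have hT : (0 : ℝ) ≤ T := Nat.cast_nonneg T
      have h8 := mul_le_mul_of_nonneg_left (mul_le_mul_of_nonneg_left h3 hT)
        (show (0 : ℝ) ≤ 1 + 1 / 1000 by norm_num)
      linarith
    refine (Finset.sum_le_sum h1).trans ?_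
    rw [Finset.sum_add_distrib, ← Finset.mul_sum, ← Finset.mul_sum, ← Finset.mul_sum,
      ← Finset.mul_sum, ← Finset.sum_mul]
    have hT : (0 : ℝ) ≤ T := Nat.cast_nonneg T
    have h9 : ∑ S ∈ P.powersetCard j, ∏ p ∈ S, (2 * EK.dl N p) ≤ (2 * ∑ p ∈ P, EK.dl N p) ^ j := by
      have := es_le (fun p => 2 * EK.dl N p) P
        (fun p _ => mul_nonneg (by norm_num) (EK.dl_nonneg N p)) j
      rw [← Finset.mul_sum] at this
      exact this
    have h10 : 0 ≤ ∏ p ∈ P, (1 - EK.dl N p) := by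
      apply Finset.prod_nonneg
      intro p hp
      have := dl_third N (hPp p hp).1 (hPp p hp).2
      linarith
    have h11 : (∑ S ∈ P.powersetCard j, (∏ p ∈ S, (p : ℝ)) ^ 4) * ((2 : ℝ) ^ 2 ^ n) ^ 250 ≤
        ((2 : ℝ) ^ 2 ^ n) ^ (250 + 5 * m) := by
      have h12 := err_sum (2 ^ 2 ^ n) j
      push_cast at h12
      have h13 : ((2 : ℝ) ^ 2 ^ n) ^ (5 * j) ≤ ((2 : ℝ) ^ 2 ^ n) ^ (5 * m) :=
        pow_le_pow_right₀ (one_le_pow₀ (by norm_num)) (by omega)
      calc (∑ S ∈ P.powersetCard j, (∏ p ∈ S, (p : ℝ)) ^ 4) * ((2 : ℝ) ^ 2 ^ n) ^ 250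
          ≤ ((2 : ℝ) ^ 2 ^ n) ^ (5 * m) * ((2 : ℝ) ^ 2 ^ n) ^ 250 :=
            mul_le_mul_of_nonneg_right (h12.trans h13) (by positivity)
        _ = _ := by rw [← pow_add]; congr 1; ring
    have h14 := mul_le_mul_of_nonneg_left (mul_le_mul_of_nonneg_left
      (mul_le_mul_of_nonneg_left h9 h10) hT) (show (0 : ℝ) ≤ 1 + 1 / 1000 by norm_num)
    have h15 := mul_le_mul_of_nonneg_left h11 hC1.le
    linarith
  refine (Finset.sum_le_sum hmain).trans (le_of_eq ?_)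
  rw [Finset.sum_add_distrib, ← Finset.mul_sum, ← Finset.mul_sum, ← Finset.mul_sum,
    Finset.sum_const, Finset.card_range, nsmul_eq_mul]
  push_cast
  ring

/-- the mixed family of conditions for the lower bound -/
def EM (N : ℤ) (S : Finset ℕ) (p t : ℕ) : Prop := if p ∈ S then ACond N p t else EC N p t

noncomputable def gM (N : ℤ) (S : Finset ℕ) (p : ℕ) : ℝ := if p ∈ S then EK.dl N p else gE N p

/-- lower bound at the level of traces -/
theorem trace_lower : ∃ C1 : ℝ, 0 < C1 ∧ ∀ n : ℕ, 2 ≤ n → ∀ N : ℤ, (N = 1 ∨ N = -1) → ∀ m T : ℕ,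
    (m : ℝ) ≤ ∑ p ∈ OP (2 ^ 2 ^ n), EK.dl N p →
    (1 - 1 / 1000) * (T * (((∑ p ∈ OP (2 ^ 2 ^ n), EK.dl N p) / 2) ^ m / (m.factorial : ℝ) *
      ∏ p ∈ OP (2 ^ 2 ^ n), (1 - gE N p))) - C1 * ((2 : ℝ) ^ 2 ^ n) ^ (250 + 5 * m) ≤
    (((range T).filter (fun t : ℕ => ((OP (2 ^ 2 ^ n)).filter
      (fun p => LC N p t)).card ≤ m)).card : ℝ) := by
  obtain ⟨C1, hC1, hs⟩ := sift_S
  refine ⟨C1, hC1, ?_⟩
  intro n hn N hN m T hσ
  set P := OP (2 ^ 2 ^ n) with hP
  have hPp : ∀ p ∈ P, p.Prime ∧ 2 < p := fun p hp => ⟨(mem_OP.1 hp).1, (mem_OP.1 hp).2.1⟩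
  have hsub : (P.powersetCard m).biUnion
        (fun S => (range T).filter (fun t => Pt (EM N S) P S t)) ⊆
      (range T).filter (fun t : ℕ => (P.filter (fun p => LC N p t)).card ≤ m) := by
    intro t ht
    rw [Finset.mem_biUnion] at ht
    obtain ⟨S, hS, ht⟩ := ht
    obtain ⟨hS1, hS2⟩ := Finset.mem_powersetCard.1 hS
    obtain ⟨h1, h2, h3⟩ := Finset.mem_filter.1 ht
    refine Finset.mem_filter.2 ⟨h1, ?_⟩
    rw [← hS2]
    apply Finset.card_le_card
    intro p hp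
    obtain ⟨hp1, hp2⟩ := Finset.mem_filter.1 hp
    by_contra hpS
    have h4 := h3 p (Finset.mem_sdiff.2 ⟨hp1, hpS⟩)
    unfold EM at h4
    rw [if_neg hpS] at h4
    exact h4 (LC_imp_EC N p t hp2)
  have hdisj : ∀ S ∈ P.powersetCard m, ∀ S' ∈ P.powersetCard m, S ≠ S' →
      Disjoint ((range T).filter (fun t => Pt (EM N S) P S t))
        ((range T).filter (fun t => Pt (EM N S') P S' t)) := by
    have key : ∀ S ∈ P.powersetCard m, ∀ t, Pt (EM N S) P S t →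
        S = P.filter (fun p => ACond N p t) := by
      intro S hS t ht
      obtain ⟨hS1, hS2⟩ := Finset.mem_powersetCard.1 hS
      obtain ⟨h2, h3⟩ := ht
      ext p
      rw [Finset.mem_filter]
      constructor
      · intro hp
        have := h2 p hp
        unfold EM at this
        rw [if_pos hp] at this
        exact ⟨hS1 hp, this⟩
      · rintro ⟨hp1, hp2⟩
        by_contra hpS
        have h4 := h3 p (Finset.mem_sdiff.2 ⟨hp1, hpS⟩)
        unfold EM at h4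
        rw [if_neg hpS] at h4
        exact h4 (Or.inl hp2)
    intro S hS S' hS' hne
    rw [Finset.disjoint_left]
    intro t ht ht'
    exact hne ((key S hS t (Finset.mem_filter.1 ht).2).trans
      (key S' hS' t (Finset.mem_filter.1 ht').2).symm)
  have hc1 : ∑ S ∈ P.powersetCard m,
        (((range T).filter (fun t => Pt (EM N S) P S t)).card : ℝ) ≤
      (((range T).filter (fun t : ℕ => (P.filter (fun p => LC N p t)).card ≤ m)).card : ℝ) := by
    have h1 := Finset.card_le_card hsub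
    rw [Finset.card_biUnion hdisj] at h1
    exact_mod_cast h1
  refine le_trans ?_ hc1
  have h1 : ∀ S ∈ P.powersetCard m,
      (1 - 1 / 1000) * (T * ((∏ p ∈ S, EK.dl N p) * ∏ p ∈ P, (1 - gE N p))) -
        C1 * ((∏ p ∈ S, (p : ℝ)) ^ 4 * ((2 : ℝ) ^ 2 ^ n) ^ 250) ≤
      (((range T).filter (fun t => Pt (EM N S) P S t)).card : ℝ) := by
    intro S hS
    obtain ⟨hS1, hS2⟩ := Finset.mem_powersetCard.1 hS
    have hDg : Pool.Agent.PSq.Dg (gM N S) := by
      intro p hp h3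
      unfold gM
      split_ifs
      · exact Dg_dl N p hp h3
      · obtain ⟨h4, h5⟩ := gE_bounds N hN p hp (by omega)
        refine ⟨h4, h5.trans ?_⟩
        have : (0 : ℝ) < p := by exact_mod_cast hp.pos
        exact div_le_div_of_nonneg_right (by norm_num) this.le
    have h2 := (hs n hn (EM N S) (gM N S) 4 (le_refl 4) hDg
      (fun p hp _ t => by
        unfold EM
        split_ifs
        · exact ACond_per4 N p hp t
        · exact EC_periodic N p hp t)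
      (fun p hp hp2 => by
        unfold EM gM
        split_ifs
        · exact ACond_sum4 N p hp
        · exact EC_sum N hN p hp hp2) S hS1 T).1
    have e1 : ∏ p ∈ S, gM N S p = ∏ p ∈ S, EK.dl N p := by
      apply Finset.prod_congr rfl
      intro p hp
      unfold gM
      rw [if_pos hp]
    have e2 : ∏ p ∈ P \ S, (1 - gM N S p) = ∏ p ∈ P \ S, (1 - gE N p) := by
      apply Finset.prod_congr rfl
      intro p hp
      unfold gM
      rw [if_neg (Finset.mem_sdiff.1 hp).2]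
    rw [e1, e2] at h2
    have hfac : ∀ p ∈ P, 0 ≤ 1 - gE N p ∧ 1 - gE N p ≤ 1 := by
      intro p hp
      obtain ⟨h4, h5⟩ := gE_bounds N hN p (hPp p hp).1 (by have := (hPp p hp).2; omega)
      have h6 : (1 : ℝ) / p ≤ 1 := by
        rw [div_le_one (by exact_mod_cast (hPp p hp).1.pos)]
        exact_mod_cast (hPp p hp).1.one_lt.le
      constructor <;> linarith
    have h3 : ∏ p ∈ P, (1 - gE N p) ≤ ∏ p ∈ P \ S, (1 - gE N p) := by
      rw [← Finset.prod_sdiff hS1]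
      have h4 : ∏ p ∈ S, (1 - gE N p) ≤ 1 :=
        Finset.prod_le_one (fun p hp => (hfac p (hS1 hp)).1) (fun p hp => (hfac p (hS1 hp)).2)
      have h5 : 0 ≤ ∏ p ∈ P \ S, (1 - gE N p) :=
        Finset.prod_nonneg (fun p hp => (hfac p (Finset.mem_sdiff.1 hp).1).1)
      nlinarith
    have hS0 : 0 ≤ ∏ p ∈ S, EK.dl N p := Finset.prod_nonneg (fun p _ => EK.dl_nonneg N p)
    have hT : (0 : ℝ) ≤ T := Nat.cast_nonneg T
    have h8 := mul_le_mul_of_nonneg_left (mul_le_mul_of_nonneg_left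
      (mul_le_mul_of_nonneg_left h3 hS0) hT) (show (0 : ℝ) ≤ 1 - 1 / 1000 by norm_num)
    linarith
  refine le_trans ?_ (Finset.sum_le_sum h1)
  rw [Finset.sum_sub_distrib, ← Finset.mul_sum, ← Finset.mul_sum, ← Finset.mul_sum,
    ← Finset.sum_mul, ← Finset.sum_mul]
  have hT : (0 : ℝ) ≤ T := Nat.cast_nonneg T
  have h9 := es_ge (EK.dl N) P
    (fun p hp => ⟨EK.dl_nonneg N p, dl_third N (hPp p hp).1 (hPp p hp).2⟩) m hσ
  unfold es at h9
  have h10 : 0 ≤ ∏ p ∈ P, (1 - gE N p) := by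
    apply Finset.prod_nonneg
    intro p hp
    obtain ⟨h4, h5⟩ := gE_bounds N hN p (hPp p hp).1 (by have := (hPp p hp).2; omega)
    have h6 : (1 : ℝ) / p ≤ 1 := by
      rw [div_le_one (by exact_mod_cast (hPp p hp).1.pos)]
      exact_mod_cast (hPp p hp).1.one_lt.le
    linarith
  have h11 : (∑ S ∈ P.powersetCard m, (∏ p ∈ S, (p : ℝ)) ^ 4) * ((2 : ℝ) ^ 2 ^ n) ^ 250 ≤
      ((2 : ℝ) ^ 2 ^ n) ^ (250 + 5 * m) := by
    have h12 := err_sum (2 ^ 2 ^ n) m
    push_cast at h12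
    calc (∑ S ∈ P.powersetCard m, (∏ p ∈ S, (p : ℝ)) ^ 4) * ((2 : ℝ) ^ 2 ^ n) ^ 250
        ≤ ((2 : ℝ) ^ 2 ^ n) ^ (5 * m) * ((2 : ℝ) ^ 2 ^ n) ^ 250 :=
          mul_le_mul_of_nonneg_right h12 (by positivity)
      _ = _ := by rw [← pow_add]; congr 1; ring
  have h14 := mul_le_mul_of_nonneg_left (mul_le_mul_of_nonneg_left
    (mul_le_mul_of_nonneg_right h9 h10) hT) (show (0 : ℝ) ≤ 1 - 1 / 1000 by norm_num)
  have h15 := mul_le_mul_of_nonneg_left h11 hC1.le
  linarith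

end Pool.Agent.Lib.MP_d470cf_nt.NP
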